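import Pool.Agent.ShghF.SmallG
import Pool.Agent.ShghN.MainN
import Pool.Agent.ShghQG.Main

/-!
# The tenth multiplicity: wide classes
-/

namespace ShghF

open ShghQ ShghT

theorem MainR_sum9 (f : Fin 9 → ℕ) : ∑ l, f l = f 0 + f 1 + f 2 + f 3 + f 4 + f 5 + f 6 + f 7 + f 8 := by
  rw [Fin.sum_univ_succ, Fin.sum_univ_eight]
  have e1 : (Fin.succ 0 : Fin 9) = 1 := rfl
  have e2 : (Fin.succ 1 : Fin 9) = 2 := rfl
  have e3 : (Fin.succ 2 : Fin 9) = 3 := rfl
  have e4 : (Fin.succ 3 : Fin 9) = 4 := rfl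
  have e5 : (Fin.succ 4 : Fin 9) = 5 := rfl
  have e6 : (Fin.succ 5 : Fin 9) = 6 := rfl
  have e7 : (Fin.succ 6 : Fin 9) = 7 := rfl
  have e8 : (Fin.succ 7 : Fin 9) = 8 := rfl
  rw [e1, e2, e3, e4, e5, e6, e7, e8]
  ring

theorem main_R_aux {k : Type*} [Field k] {s : ℕ} (P : Fin s → Fin 2 → k)
    (hP : AlgebraicIndependent (⊥ : Subfield k) (fun ij : Fin s × Fin 2 => P ij.1 ij.2))
    (δ : ℕ) (μ : Fin s → ℕ) (c : Fin 9 → Fin s) (hc : Function.Injective c) (m κ : ℕ)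
    (hm : 1 ≤ m) (hκ1 : 1 ≤ κ) (hanti : Antitone fun l => μ (c l))
    (hstd : μ (c 0) + μ (c 1) + μ (c 2) ≤ δ)
    (hU : ∀ i, i ∉ Set.range c → μ i ≤ m)
    (hκ : (((Finset.univ \ Finset.univ.image c).image μ).erase 0).card ≤ κ)
    (hb : μ (c 0) + 40 * κ * m ≤ δ) (he : ∑ l, μ (c l) + 44 * κ * m + 1 ≤ 3 * δ)
    (h1 : 16200 * κ * m ^ 2 ≤ δ) :
    (Module.finrank k (LS δ μ P) : ℤ) =
      max 0 (((δ + 2).choose 2 : ℤ) - ∑ i, ((μ i + 1).choose 2 : ℤ)) := by
  classical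
  have hκm : m ^ 2 ≤ κ * m ^ 2 := Nat.le_mul_of_pos_left _ hκ1
  have hm2 : m ≤ m ^ 2 := by nlinarith
  have h1' : 16200 * m ^ 2 ≤ δ := by
    refine le_trans ?_ h1
    rw [mul_assoc]
    exact Nat.mul_le_mul_left _ hκm
  have hsum := MainR_sum9 fun l => μ (c l)
  have a12 : μ (c 2) ≤ μ (c 1) := hanti (by decide : (1 : Fin 9) ≤ 2)
  have a23 : μ (c 3) ≤ μ (c 2) := hanti (by decide : (2 : Fin 9) ≤ 3)
  have a34 : μ (c 4) ≤ μ (c 3) := hanti (by decide : (3 : Fin 9) ≤ 4)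
  have a45 : μ (c 5) ≤ μ (c 4) := hanti (by decide : (4 : Fin 9) ≤ 5)
  have a56 : μ (c 6) ≤ μ (c 5) := hanti (by decide : (5 : Fin 9) ≤ 6)
  have a67 : μ (c 7) ≤ μ (c 6) := hanti (by decide : (6 : Fin 9) ≤ 7)
  have a78 : μ (c 8) ≤ μ (c 7) := hanti (by decide : (7 : Fin 9) ≤ 8)
  rcases Nat.lt_or_ge (3 * δ) (∑ l, μ (c l) + 600 * m ^ 2) with hA | hA
  · have h8 : 23 * m ^ 2 ≤ μ (c 8) := by
      have h2 := last_ge hanti hstd
      have h3 : ((∑ l, μ (c l) : ℕ) : ℤ) = ∑ l, (μ (c l) : ℤ) := by push_cast; rfl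
      rw [← h3] at h2
      clear hsum a12 a23 a34 a45 a56 a67 a78 hb he h3 hκm hm2 h1 hstd
      generalize ∑ l, μ (c l) = S at h2 hA
      generalize μ (c 8) = x at h2
      generalize m ^ 2 = q at hA h1'
      omega
    refine ShghN.main_nine P hP δ μ c hc m κ (3 * δ - ∑ l, μ (c l)) hm hκ1
      ⟨hanti, hstd, by omega⟩ hU hκ h8 (by omega)
  · -- the eight points
    set I : Finset (Fin s) := (Finset.univ.image c).erase (c 0) with hI
    have hins : insert (c 0) I = Finset.univ.image c := by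
      rw [hI]
      exact Finset.insert_erase (Finset.mem_image_of_mem _ (Finset.mem_univ _))
    have hsumI : ∀ f : Fin s → ℕ, ∑ i ∈ I, f i + f (c 0) = ∑ l, f (c l) := by
      intro f
      rw [hI, Finset.sum_erase_add _ _ (Finset.mem_image_of_mem _ (Finset.mem_univ _)),
        Finset.sum_image (fun a _ b _ hab => hc hab)]
    have hle1 : ∀ l : Fin 9, l ≠ 0 → μ (c l) ≤ μ (c 1) := by
      intro l hl
      refine hanti ?_
      rw [Fin.le_def]
      have : l.val ≠ 0 := fun h => hl (Fin.ext h)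
      simp only [Fin.val_one]
      omega
    have hImem : ∀ i ∈ I, ∃ l : Fin 9, l ≠ 0 ∧ i = c l := by
      intro i hi
      rw [hI, Finset.mem_erase, Finset.mem_image] at hi
      obtain ⟨h2, l, -, rfl⟩ := hi
      exact ⟨l, fun h => h2 (by rw [h]), rfl⟩
    have hUI : ∀ i, i ≠ c 0 → i ∉ I → μ i ≤ m := by
      intro i h2 h3
      refine hU i ?_
      rintro ⟨l, rfl⟩
      apply h3
      rw [hI, Finset.mem_erase]
      exact ⟨h2, Finset.mem_image_of_mem _ (Finset.mem_univ _)⟩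
    have hcardI : I.card = 8 := by
      rw [hI, Finset.card_erase_of_mem (Finset.mem_image_of_mem _ (Finset.mem_univ _)),
        Finset.card_image_of_injective _ hc, Finset.card_univ, Fintype.card_fin]
    rcases Nat.lt_or_ge δ (∑ i ∈ I, (μ i + m) + 45 * m ^ 2) with hB | hB
    · have h2 := hsumI μ
      have h3 : ∑ i ∈ I, (μ i + m) = ∑ i ∈ I, μ i + 8 * m := by
        rw [Finset.sum_add_distrib, Finset.sum_const, smul_eq_mul, hcardI]
      have h4 : δ ≤ 5 * (δ - μ (c 0)) := by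
        rw [h3] at hB
        rw [hsum] at h2
        clear hA he hb hsum h3 hκm h1
        obtain ⟨b, hb⟩ : ∃ b, δ = μ (c 0) + b := ⟨δ - μ (c 0), by omega⟩
        have h5 : δ - μ (c 0) = b := by omega
        rw [h5]
        generalize m ^ 2 = q at hB h1' hm2
        generalize μ (c 0) = x0 at *
        linarith
      have h7 : 16200 * m ^ 2 ≤ 5 * (δ - μ (c 0)) := h1'.trans h4
      refine ShghN.main P hP δ μ c hc m κ hm hκ1 hanti hstd hU hκ ?_ hA ?_
      · clear hA hB h2 h3 hsum he hb h1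
        generalize m ^ 2 = q at h7 h1'
        omega
      · have h5 : 600 * m ^ 2 ≤ 3 * δ - ∑ l, μ (c l) := by
          clear hB h2 h3 hsum he hb h1 h4 h7
          omega
        have h6 : 3240 * (κ * m ^ 2) ≤ δ - μ (c 0) := by
          have h8 : 16200 * (κ * m ^ 2) ≤ 5 * (δ - μ (c 0)) := by
            rw [← mul_assoc]
            exact h1.trans h4
          clear hA hB h2 h3 hsum he hb h1 h4 h7 h5
          generalize κ * m ^ 2 = q at h8
          omega
        calc 700000 * κ * m ^ 4 = 700000 * (κ * m ^ 4) := by ring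
          _ ≤ 1944000 * (κ * m ^ 4) := Nat.mul_le_mul_right _ (by norm_num)
          _ = (600 * m ^ 2) * (3240 * (κ * m ^ 2)) := by ring
          _ ≤ _ := Nat.mul_le_mul h5 h6
    · refine ShghQG.main P hP δ μ m κ (c 0) I hm hκ1 ?_ hUI ?_ ?_ hB hb ?_
      · rw [hI]
        exact Finset.notMem_erase _ _
      · rw [hins]
        exact hκ
      · intro i hi
        obtain ⟨l, hl, rfl⟩ := hImem i hi
        have h2 := hle1 l hl
        have a01 : μ (c 1) ≤ μ (c 0) := hanti (by decide : (0 : Fin 9) ≤ 1)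
        exact ⟨h2.trans a01, by omega⟩
      · have h3 : κ * m ^ 4 ≤ κ * (κ * m ^ 4) := Nat.le_mul_of_pos_left _ hκ1
        calc 12800 * κ * m ^ 4 = 12800 * (κ * m ^ 4) := by ring
          _ ≤ 262440000 * (κ * (κ * m ^ 4)) := Nat.mul_le_mul (by norm_num) h3
          _ = (16200 * κ * m ^ 2) * (16200 * κ * m ^ 2) := by ring
          _ ≤ δ * δ := Nat.mul_le_mul h1 h1
          _ = δ ^ 2 := by ring

/-- **Wide classes.** The nine points need not be sorted. -/
theorem main_R {k : Type*} [Field k] {s : ℕ} (P : Fin s → Fin 2 → k)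
    (hP : AlgebraicIndependent (⊥ : Subfield k) (fun ij : Fin s × Fin 2 => P ij.1 ij.2))
    (δ : ℕ) (μ : Fin s → ℕ) (c : Fin 9 → Fin s) (hc : Function.Injective c) (m κ : ℕ)
    (hm : 1 ≤ m) (hκ1 : 1 ≤ κ)
    (hstd : ∀ i j l, i ≠ j → i ≠ l → j ≠ l → μ (c i) + μ (c j) + μ (c l) ≤ δ)
    (hU : ∀ i, i ∉ Set.range c → μ i ≤ m)
    (hκ : (((Finset.univ \ Finset.univ.image c).image μ).erase 0).card ≤ κ)
    (hb : ∀ l, μ (c l) + 40 * κ * m ≤ δ) (he : ∑ l, μ (c l) + 44 * κ * m + 1 ≤ 3 * δ)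
    (h1 : 16200 * κ * m ^ 2 ≤ δ) :
    (Module.finrank k (LS δ μ P) : ℤ) =
      max 0 (((δ + 2).choose 2 : ℤ) - ∑ i, ((μ i + 1).choose 2 : ℤ)) := by
  classical
  let σ : Equiv.Perm (Fin 9) := Fin.revPerm.trans (Tuple.sort fun l => μ (c l))
  have hr : Set.range (fun l => c (σ l)) = Set.range c := by
    ext x
    constructor
    · rintro ⟨l, rfl⟩
      exact ⟨σ l, rfl⟩
    · rintro ⟨l, rfl⟩
      exact ⟨σ.symm l, by simp⟩
  have hr' : Finset.univ.image (fun l => c (σ l)) = Finset.univ.image c := by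
    apply Finset.coe_injective
    rw [Finset.coe_image, Finset.coe_image, Finset.coe_univ, Set.image_univ, Set.image_univ, hr]
  refine main_R_aux P hP δ μ (fun l => c (σ l)) (hc.comp σ.injective) m κ hm hκ1 ?_ ?_ ?_ ?_ ?_ ?_
    h1
  · intro i j hij
    exact Tuple.monotone_sort (fun l => μ (c l)) (Fin.rev_le_rev.2 hij)
  · exact hstd _ _ _ (σ.injective.ne (by decide)) (σ.injective.ne (by decide))
      (σ.injective.ne (by decide))
  · rw [hr]
    exact hU
  · rw [hr']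
    exact hκ
  · exact hb _
  · rw [Equiv.sum_comp σ fun l => μ (c l)]
    exact he

end ShghF
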