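import Pool.Agent.ShghF.MainG
import Pool.Agent.ShghC.MainC

/-!
# Prime divisors of large genus with at most nine multiplicities greater than `m`
-/

namespace ShghT

open MvPolynomial

private theorem PrimeG_split {s : ℕ} (b : Fin 3 → Fin s) (hb : Function.Injective b)
    (f : Fin s → ℤ) : ∑ i, f i = f (b 0) + f (b 1) + f (b 2) +
      ∑ i ∈ (Finset.univ.image b)ᶜ, f i := by
  rw [← Finset.sum_add_sum_compl (Finset.univ.image b) f,
    Finset.sum_image (fun x _ y _ h => hb h), Fin.sum_univ_three]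

/-- If at most nine multiplicities are greater than `m`, the other ones are not. -/
theorem PrimeG_le_of_card {s : ℕ} (μ : Fin s → ℕ) (m : ℕ)
    (hcard : (Finset.univ.filter fun i => m < μ i).card ≤ 9) (c : Fin 9 → Fin s)
    (hc : Function.Injective c) (hmax : ∀ i, i ∉ Set.range c → ∀ l, μ i ≤ μ (c l)) (i : Fin s)
    (hi : i ∉ Set.range c) : μ i ≤ m := by
  by_contra hcon
  have h1 : insert i (Finset.univ.image c) ⊆ Finset.univ.filter fun i => m < μ i := by
    intro j hj
    rw [Finset.mem_insert, Finset.mem_image] at hj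
    rw [Finset.mem_filter]
    refine ⟨Finset.mem_univ _, ?_⟩
    rcases hj with rfl | ⟨l, -, rfl⟩
    · omega
    · have := hmax i hi l
      omega
  have h2 := Finset.card_le_card h1
  have h3 : i ∉ Finset.univ.image c := by
    intro h
    rw [Finset.mem_image] at h
    obtain ⟨l, -, hl⟩ := h
    exact hi ⟨l, hl⟩
  rw [Finset.card_insert_of_notMem h3, Finset.card_image_of_injective _ hc, Finset.card_univ,
    Fintype.card_fin] at h2
  omega

/-- The sum of the `μ (μ - 1)` is nonnegative. -/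
theorem PrimeG_nonneg {s : ℕ} (μ : Fin s → ℕ) : 0 ≤ ∑ i, (μ i : ℤ) * ((μ i : ℤ) - 1) := by
  refine Finset.sum_nonneg fun i _ => ?_
  rcases Nat.eq_zero_or_pos (μ i) with h | h
  · rw [h]
    norm_num
  · have h1 : (1 : ℤ) ≤ μ i := by exact_mod_cast h
    exact mul_nonneg (by linarith) (by linarith)

/-- `2 p_a - 2` is invariant: as `chi_newM` (`arithC_split`). With `D' = 2 D - (m₀ + m₁ + m₂)`, `m_t' = D - (m_i + m_j)`:
`D' (D' - 3) - Σ m_t' (m_t' - 1) = D (D - 3) - Σ m_t (m_t - 1)`. -/
theorem genus_newM {s : ℕ} (D : ℕ) (b : Fin 3 → Fin s) (hb : Function.Injective b)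
    (μ : Fin s → ℕ) (h : OkC D fun t => μ (b t)) :
    ((crD D fun t => μ (b t) : ℕ) : ℤ) * (((crD D fun t => μ (b t) : ℕ) : ℤ) - 3) -
        ∑ i, (newM D b μ i : ℤ) * ((newM D b μ i : ℤ) - 1) =
      (D : ℤ) * ((D : ℤ) - 3) - ∑ i, (μ i : ℤ) * ((μ i : ℤ) - 1) := by
  have h10 : b 1 ≠ b 0 := fun e => by simpa using hb e
  have h20 : b 2 ≠ b 0 := fun e => by simpa using hb e
  have h21 : b 2 ≠ b 1 := fun e => by simpa using hb e
  rw [PrimeG_split b hb fun i => (newM D b μ i : ℤ) * ((newM D b μ i : ℤ) - 1),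
    PrimeG_split b hb fun i => (μ i : ℤ) * ((μ i : ℤ) - 1)]
  have e0 : newM D b μ (b 0) = D - (μ (b 1) + μ (b 2)) := by simp [newM]
  have e1 : newM D b μ (b 1) = D - (μ (b 0) + μ (b 2)) := by simp [newM, h10]
  have e2 : newM D b μ (b 2) = D - (μ (b 0) + μ (b 1)) := by simp [newM, h20, h21]
  have e3 : ∑ i ∈ (Finset.univ.image b)ᶜ, (newM D b μ i : ℤ) * ((newM D b μ i : ℤ) - 1) =
      ∑ i ∈ (Finset.univ.image b)ᶜ, (μ i : ℤ) * ((μ i : ℤ) - 1) := by
    apply Finset.sum_congr rfl
    intro i hi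
    rw [Finset.mem_compl, Finset.mem_image] at hi
    have a0 : i ≠ b 0 := fun e => hi ⟨0, Finset.mem_univ _, e.symm⟩
    have a1 : i ≠ b 1 := fun e => hi ⟨1, Finset.mem_univ _, e.symm⟩
    have a2 : i ≠ b 2 := fun e => hi ⟨2, Finset.mem_univ _, e.symm⟩
    simp [newM, a0, a1, a2]
  simp only [e0, e1, e2, e3]
  have hd : crD D (fun t => μ (b t)) = 2 * D - (μ (b 0) + μ (b 1) + μ (b 2)) := rfl
  rw [hd]
  obtain ⟨h1, h2, h3⟩ := h
  have h1' : μ (b 1) + μ (b 2) ≤ D := h1
  have h2' : μ (b 0) + μ (b 2) ≤ D := h2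
  have h3' : μ (b 0) + μ (b 1) ≤ D := h3
  generalize μ (b 0) = x at h2' h3' ⊢
  generalize μ (b 1) = y at h1' h3' ⊢
  generalize μ (b 2) = z at h1' h2' ⊢
  have r0 : ((D - (y + z) : ℕ) : ℤ) = D - (y + z) := by
    rw [Nat.cast_sub h1']
    push_cast
    rfl
  have r1 : ((D - (x + z) : ℕ) : ℤ) = D - (x + z) := by
    rw [Nat.cast_sub h2']
    push_cast
    rfl
  have r2 : ((D - (x + y) : ℕ) : ℤ) = D - (x + y) := by
    rw [Nat.cast_sub h3']
    push_cast
    rfl
  have r3 : ((2 * D - (x + y + z) : ℕ) : ℤ) = 2 * D - (x + y + z) := by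
    rw [Nat.cast_sub (by omega)]
    push_cast
    rfl
  rw [r0, r1, r2, r3]
  ring

/-- Adapt the proof of `ShghT.prime_W` (in `ShghC/MainC.lean`): `m < μ i` instead of `3 ≤ μ i`, the genus condition is preserved by
`genus_newM`. In the case `D < 2` the genus condition is impossible (`D (D - 3) ≤ 0`, `μ (μ - 1) ≥ 0`, the left side is positive). In
the standard case: `ShghF.main_ten` with `κ = m`: the other multiplicities are `≤ m` (compare `le_two_of_card`), the number of values is
`≤ m` (`ShghQG.card_values_le`), and `(16200 m⁶)² ≤ D (D - 3) - Σ μ (μ - 1) ≤ D²` gives `16200 m² m⁴ ≤ D`. -/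
theorem prime_ten {K : Type*} [Field K] {s : ℕ} (hs : 9 ≤ s) (m : ℕ) (hm : 1 ≤ m) :
    ∀ (D : ℕ) (P : Fin s → Fin 2 → K),
    AlgebraicIndependent (⊥ : Subfield K) (fun ij : Fin s × Fin 2 => P ij.1 ij.2) →
    ∀ μ : Fin s → ℕ, (Finset.univ.filter fun i => m < μ i).card ≤ 9 →
    ((16200 * m ^ 6 : ℕ) : ℤ) ^ 2 ≤
      (D : ℤ) * ((D : ℤ) - 3) - ∑ i, (μ i : ℤ) * ((μ i : ℤ) - 1) →
    ∀ f : MvPolynomial (Fin 2) K,
    f.totalDegree ≤ D → (∃ T : Tri K, Irreducible (T.hg D f)) →
    (∀ i, f ∈ pt (P i 0) (P i 1) ^ μ i) → (∀ i, f ∉ pt (P i 0) (P i 1) ^ (μ i + 1)) →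
    (Module.finrank K (LS D μ P) : ℤ) =
      ((D + 2).choose 2 : ℤ) - ∑ i, ((μ i + 1).choose 2 : ℤ) := by
  intro D
  induction D using Nat.strong_induction_on with
  | _ D ih =>
  intro P hP μ hcard hgen f hdeg ⟨T₀, hirr₀⟩ hmem hex
  have hfLS : f ∈ LS D μ P := mem_LS.2 ⟨hdeg, hmem⟩
  have hf0 : f ≠ 0 := by
    rintro rfl
    exact hex ⟨0, by omega⟩ (Ideal.zero_mem _)
  have hpos : 1 ≤ Module.finrank K (LS D μ P) := by
    have : Nontrivial (LS D μ P) := ⟨⟨⟨f, hfLS⟩, 0, fun h => hf0 (congrArg Subtype.val h)⟩⟩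
    exact Module.finrank_pos
  obtain ⟨c, hc, hanti, hmax⟩ := exists_nine hs μ
  have hdet := fun i j l hij hil hjl => det_gen (F := (⊥ : Subfield K)) P hP (i := i) (j := j) (l := l) hij hil hjl
  have anti : ∀ i j : Fin 9, i ≤ j → μ (c j) ≤ μ (c i) := fun i j hij => hanti hij
  have h0l : ∀ l, μ (c l) ≤ μ (c 0) := fun l => anti 0 l (Fin.zero_le l)
  have h1l : ∀ l : Fin 9, l ≠ 0 → μ (c l) ≤ μ (c 1) := fun l hl => anti 1 l (by
    rw [Fin.le_def]
    have : l.val ≠ 0 := fun h => hl (Fin.ext h)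
    simp only [Fin.val_one]
    omega)
  have h2l : ∀ l : Fin 9, l ≠ 0 → l ≠ 1 → μ (c l) ≤ μ (c 2) := fun l hl hl' => anti 2 l (by
    rw [Fin.le_def]
    have h3 : l.val ≠ 0 := fun h => hl (Fin.ext h)
    have h4 : l.val ≠ 1 := fun h => hl' (Fin.ext h)
    have h5 : (2 : Fin 9).val = 2 := rfl
    omega)
  rcases Nat.lt_or_ge D (μ (c 0) + μ (c 1) + μ (c 2)) with hlt | hge
  · -- not standard
    have hout : ∀ i, (∀ l, i ≠ c l) → ∀ l, μ i ≤ μ (c l) := fun i hi l =>
      hmax i (by rintro ⟨l', hl'⟩; exact hi l' hl'.symm) l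
    rcases Nat.lt_or_ge D 2 with hD | hD
    · -- lines
      exfalso
      have h1 := PrimeG_nonneg μ
      have h2 : (D : ℤ) * ((D : ℤ) - 3) ≤ 0 := by
        have h3 : (0 : ℤ) ≤ D := by positivity
        have h4 : (D : ℤ) ≤ 1 := by omega
        exact mul_nonpos_of_nonneg_of_nonpos h3 (by linarith)
      have h3 : (0 : ℤ) < ((16200 * m ^ 6 : ℕ) : ℤ) ^ 2 := by
        have h4 : 0 < 16200 * m ^ 6 := by positivity
        have h5 : (0 : ℤ) < ((16200 * m ^ 6 : ℕ) : ℤ) := by exact_mod_cast h4
        positivity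
      linarith
    · -- the quadratic transformation
      set b : Fin 3 → Fin s := ![c 0, c 1, c 2] with hbdef
      have hb : Function.Injective b := by
        have h01 : c 0 ≠ c 1 := hc.ne (by decide)
        have h02 : c 0 ≠ c 2 := hc.ne (by decide)
        have h12 : c 1 ≠ c 2 := hc.ne (by decide)
        intro i j hij
        fin_cases i <;> fin_cases j <;> simp_all
      obtain ⟨T, hTA⟩ := exists_tri (fun t => P (b t)) (hdet (b 0) (b 1) (b 2)
        (hb.ne (by decide)) (hb.ne (by decide)) (hb.ne (by decide)))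
      have hT : ∀ t, T.A t = P (b t) := fun t => congrFun hTA t
      have hirr := T₀.irreducible_hg T hdeg hirr₀
      have hadd : ∀ i j : Fin 3, i ≠ j → μ (b i) + μ (b j) ≤ D := fun i j hij =>
        mult_add_le T hD hdeg hirr (P (b i)) (P (b j)) (point_ne P hP (hb.ne hij)) (hmem _)
          (hmem _)
      have hOk : OkC D fun t => μ (b t) :=
        ⟨hadd 1 2 (by decide), hadd 0 2 (by decide), hadd 0 1 (by decide)⟩
      have hC := inC_of_LS T P b hT hfLS
      have hC' := hC.cr hOk
      have hlt' : D < μ (b 0) + μ (b 1) + μ (b 2) := hlt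
      have h01 := hadd 0 1 (by decide)
      have h02 := hadd 0 2 (by decide)
      have h12 := hadd 1 2 (by decide)
      have hcrD : 1 ≤ crD D (fun t => μ (b t)) ∧ crD D (fun t => μ (b t)) < D := by
        rw [crD]
        omega
      have hnX : ∀ t, ¬ X t ∣ T.hg D f := fun t => T.not_X_dvd hD hdeg hirr t
      have hexp : ∀ t, ∃ α ∈ (T.hg D f).support, α t + μ (b t) = D := by
        intro t
        have h1 := hex (b t)
        rw [← hT t, T.mem_pt_vertex hdeg] at h1
        push Not at h1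
        obtain ⟨α, hα, hα2⟩ := h1
        exact ⟨α, hα, le_antisymm (hC.exp α hα t) (by omega)⟩
      have hnX' : ∀ t, ¬ X t ∣ cr D (fun t => μ (b t)) (T.hg D f) := fun t =>
        not_X_dvd_cr hC t (hexp t)
      have hirr' := irreducible_cr hOk hcrD.1 hC hirr hnX hnX'
      have hOkP : ∀ l, (∀ t, l ≠ b t) → T.Ok (P l) := fun l hl => T.ok_gen P hP b hb hT l hl
      have hf'LS := tf_mem_LS T P b hb hT hOkP hOk hfLS
      have hhg : T.hg (crD D fun t => μ (b t)) (T.tf D (fun t => μ (b t)) f) =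
          cr D (fun t => μ (b t)) (T.hg D f) := by
        rw [Tri.tf, T.hg_ev hC'.hom]
      have hμ' : ∀ i, newM D b μ i ≤ μ i := by
        intro i
        by_cases hi : ∃ t, b t = i
        · obtain ⟨t, rfl⟩ := hi
          rw [newM_base b hb]
          fin_cases t
          · simp only [crM]
            change D - (μ (b 1) + μ (b 2)) ≤ μ (b 0)
            omega
          · simp only [crM]
            change D - (μ (b 0) + μ (b 2)) ≤ μ (b 1)
            omega
          · simp only [crM]
            change D - (μ (b 0) + μ (b 1)) ≤ μ (b 2)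
            omega
        · push Not at hi
          rw [newM_other b μ fun t ht => hi t ht.symm]
      have h := ih (crD D fun t => μ (b t)) hcrD.2 (newP T b P) (algInd_newP T P hP b hb hT)
        (newM D b μ) ((Finset.card_le_card (by
          intro i
          simp only [Finset.mem_filter, Finset.mem_univ, true_and]
          exact fun h => h.trans_le (hμ' i))).trans hcard)
        (by rw [genus_newM D b hb μ hOk]; exact hgen) (T.tf D (fun t => μ (b t)) f)
        (mem_LS.1 hf'LS).1 ⟨T, by rw [hhg]; exact hirr'⟩ (mem_LS.1 hf'LS).2 (by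
          intro l hl
          by_cases hl' : ∃ t, b t = l
          · obtain ⟨t, rfl⟩ := hl'
            rw [newP_base, newM_base b hb, ← hT t, T.mem_pt_vertex (mem_LS.1 hf'LS).1, hhg] at hl
            obtain ⟨α, hα, hα2⟩ := exact_cr hOk hC t (hnX t)
            have := hl α hα
            omega
          · push Not at hl'
            have hl2 : ∀ t, l ≠ b t := fun t ht => hl' t ht.symm
            rw [newP_other T P b hl2, newM_other b μ hl2] at hl
            have h1 := T.tf_mem_pt (mem_LS.1 hf'LS).1 (inC_of_LS' T P b hb hT hf'LS)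
              (hOkP l hl2) hl
            rw [tf_tf T hOk hdeg hC] at h1
            exact hex l h1)
      rw [finrank_newM T P b hb hT hOkP hOk, h, chi_newM D b hb μ hOk]
  · -- standard
    have hU : ∀ i, i ∉ Set.range c → μ i ≤ m := fun i hi =>
      PrimeG_le_of_card μ m hcard c hc hmax i hi
    have hD6 : 16200 * m ^ 2 * m ^ 4 ≤ D := by
      have h1 := PrimeG_nonneg μ
      have h2 : ((16200 * m ^ 6 : ℕ) : ℤ) ^ 2 ≤ (D : ℤ) ^ 2 := by
        have h3 : (0 : ℤ) ≤ D := by positivity
        nlinarith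
      have h3 : ((16200 * m ^ 6 : ℕ) : ℤ) ≤ (D : ℤ) :=
        (pow_le_pow_iff_left₀ (by positivity) (by positivity) (by norm_num)).1 h2
      have h4 : 16200 * m ^ 6 ≤ D := by exact_mod_cast h3
      calc 16200 * m ^ 2 * m ^ 4 = 16200 * m ^ 6 := by ring
        _ ≤ D := h4
    have h := ShghF.main_ten P hP D μ c hc m m hm hm hmax (by
      intro i j l hij hil hjl
      -- the three largest
      have key : ∀ i j l : Fin 9, i < j → j < l → μ (c i) + μ (c j) + μ (c l) ≤ D := by
        intro i j l h1 h2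
        have e0 := h0l i
        have e1 := h1l j (by rintro rfl; exact absurd h1 (by simp))
        have e2 := h2l l (by rintro rfl; exact absurd h2 (by simp)) (by
          rintro rfl
          rw [Fin.lt_def] at h1 h2
          simp only [Fin.val_one] at h2
          omega)
        omega
      rcases lt_trichotomy i j with h1 | h1 | h1
      · rcases lt_trichotomy j l with h2 | h2 | h2
        · exact key i j l h1 h2
        · exact absurd h2 hjl
        · rcases lt_trichotomy i l with h3 | h3 | h3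
          · have := key i l j h3 h2
            omega
          · exact absurd h3 hil
          · have := key l i j h3 h1
            omega
      · exact absurd h1 hij
      · rcases lt_trichotomy i l with h2 | h2 | h2
        · have := key j i l h1 h2
          omega
        · exact absurd h2 hil
        · rcases lt_trichotomy j l with h3 | h3 | h3
          · have := key j l i h3 h2
            omega
          · exact absurd h3 hjl
          · have := key l j i h3 h1
            omega) hU (ShghQG.card_values_le μ m _ fun i hi => hU i (by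
              rintro ⟨l, hl⟩
              rw [Finset.mem_sdiff] at hi
              exact hi.2 (Finset.mem_image.2 ⟨l, Finset.mem_univ _, hl⟩))) hD6
    have h3 : (1 : ℤ) ≤ max 0 (((D + 2).choose 2 : ℤ) - ∑ i, ((μ i + 1).choose 2 : ℤ)) := by
      rw [← h]
      exact_mod_cast hpos
    rw [h]
    rcases le_total 0 (((D + 2).choose 2 : ℤ) - ∑ i, ((μ i + 1).choose 2 : ℤ)) with h4 | h4
    · exact max_eq_right h4
    · rw [max_eq_left h4] at h3
      omega

end ShghT
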