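import Pool.Agent.ShghF.PatF

/-!
# Every monotone table is realized by admissible patterns
-/

namespace ShghF

open ShghQ

theorem RealF_row {ν L N : ℕ} {F : ℕ → ℕ → ℕ} (hF : Mon ν L N F) {q : ℕ} (hq : q < L) {r r' : ℕ}
    (h1 : 1 ≤ r) (h2 : r ≤ r') (h3 : r' ≤ min ν q) : F r q ≤ F r' q := by
  induction r', h2 using Nat.le_induction with
  | base => exact le_rfl
  | succ k hk ih =>
    exact (ih (by omega)).trans (hF.row k q (by omega) (by omega) (by omega) hq)

theorem RealF_one {ν L N : ℕ} {F : ℕ → ℕ → ℕ} (hF : Mon ν L N F) {q r : ℕ}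
    (hq : q + 1 < L) (hq1 : 1 ≤ q) (h1 : 1 ≤ r) (h3 : r ≤ min ν (q + 1)) :
    F r (q + 1) ≤ F 1 q :=
  (RealF_row hF hq h1 h3 le_rfl).trans (hF.step q hq1 hq)

theorem RealF_anti {ν L N : ℕ} (hν : 1 ≤ ν) {F : ℕ → ℕ → ℕ} (hF : Mon ν L N F) {q q' : ℕ}
    (h1 : 1 ≤ q) (h2 : q ≤ q') (h3 : q' < L) : F 1 q' ≤ F 1 q := by
  induction q', h2 using Nat.le_induction with
  | base => exact le_rfl
  | succ k hk ih =>
    exact (RealF_one hF h3 (by omega) le_rfl (by omega)).trans (ih (by omega))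

theorem RealF_le {ν L N : ℕ} (hν : 1 ≤ ν) {F : ℕ → ℕ → ℕ} (hF : Mon ν L N F) {q r : ℕ}
    (hq : 1 ≤ q) (hqL : q < L) (hr : 1 ≤ r) (hr2 : r ≤ min ν q) : F r q ≤ N := by
  rcases Nat.lt_or_ge q 2 with h | h
  · have e1 : q = 1 := by omega
    have e2 : r = 1 := by omega
    rw [e1, e2]
    exact hF.top
  · obtain ⟨q, rfl⟩ : ∃ k, q = k + 1 := ⟨q - 1, by omega⟩
    exact ((RealF_one hF hqL (by omega) hr hr2).trans
      (RealF_anti hν hF le_rfl (by omega) (by omega))).trans hF.top

/-- one point -/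
theorem RealF_pt {ν L N : ℕ} (hν : 1 ≤ ν) (hL : ν ≤ L) (hL2 : 2 ≤ L) {F : ℕ → ℕ → ℕ}
    (hF : Mon ν L N F) (t : ℕ) : ∃ p n : ℕ, Adm L ν p n ∧
      ∀ q r, 1 ≤ q → q < L → 1 ≤ r → r ≤ min ν q → (pref p n q r ↔ t < F r q) := by
  obtain ⟨p, hp⟩ : ∃ p, p = Nat.findGreatest (fun q => t < F 1 q) (L - 1) := ⟨_, rfl⟩
  have hpL : p ≤ L - 1 := by
    rw [hp]
    exact Nat.findGreatest_le _
  have hp1 : 1 ≤ p → t < F 1 p := by
    intro h
    exact Nat.findGreatest_of_ne_zero (P := fun q => t < F 1 q) hp.symm (by omega)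
  have hp2 : ∀ q, p < q → q ≤ L - 1 → F 1 q ≤ t := by
    intro q h1 h2
    rw [hp] at h1
    exact not_lt.1 (Nat.findGreatest_is_greatest (P := fun q => t < F 1 q) h1 h2)
  obtain ⟨n, hn⟩ : ∃ n, n = if p + 1 = L then ν else
      Nat.findGreatest (fun r => F r (p + 1) ≤ t) (min ν (p + 1)) := ⟨_, rfl⟩
  have hn1 : p + 1 ≠ L → 1 ≤ n ∧ n ≤ min ν (p + 1) ∧ F n (p + 1) ≤ t ∧
      ∀ r, n < r → r ≤ min ν (p + 1) → t < F r (p + 1) := by
    intro h
    rw [if_neg h] at hn
    have h1 : F 1 (p + 1) ≤ t := hp2 (p + 1) (by omega) (by omega)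
    have h2 : 1 ≤ n := by
      rw [hn]
      exact Nat.le_findGreatest (by omega) h1
    refine ⟨h2, ?_, ?_, ?_⟩
    · rw [hn]
      exact Nat.findGreatest_le _
    · have h3 := Nat.findGreatest_of_ne_zero hn.symm (by omega)
      exact h3
    · intro r h3 h4
      rw [hn] at h3
      exact not_le.1 (Nat.findGreatest_is_greatest (P := fun r => F r (p + 1) ≤ t) h3 h4)
  refine ⟨p, n, ⟨?_, ?_, ?_, by omega, ?_⟩, ?_⟩
  · by_cases h : p + 1 = L
    · rw [hn, if_pos h]
      exact hν
    · exact (hn1 h).1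
  · by_cases h : p + 1 = L
    · rw [hn, if_pos h]
    · have := (hn1 h).2.1
      omega
  · by_cases h : p + 1 = L
    · rw [hn, if_pos h]
      omega
    · have := (hn1 h).2.1
      omega
  · intro h
    rw [hn, if_pos h]
  · intro q r hq hqL hr hr2
    unfold pref
    rcases Nat.lt_or_ge p q with h | h
    · rcases Nat.eq_or_lt_of_le h with h1 | h1
      · have e1 : q = p + 1 := h1.symm
        subst e1
        obtain ⟨a1, a2, a3, a4⟩ := hn1 (by omega)
        constructor
        · rintro (h2 | ⟨-, h2⟩)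
          · omega
          · exact a4 r h2 hr2
        · intro h2
          refine Or.inr ⟨rfl, ?_⟩
          by_contra h3
          have h4 := RealF_row hF hqL hr (not_lt.1 h3) a2
          omega
      · constructor
        · rintro (h2 | ⟨h2, -⟩)
          · omega
          · omega
        · intro h2
          exfalso
          obtain ⟨q, rfl⟩ : ∃ k, q = k + 1 := ⟨q - 1, by omega⟩
          have h3 := RealF_one hF hqL (by omega) hr hr2
          have h4 := hp2 q (by omega) (by omega)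
          omega
    · constructor
      · intro _
        have h1 := hp1 (by omega)
        have h2 := RealF_anti hν hF hq h (by omega)
        have h3 := RealF_row hF hqL le_rfl hr hr2
        omega
      · intro _
        exact Or.inl h

theorem RealF_count {k N : ℕ} (h : k ≤ N) :
    ∑ t ∈ Finset.range N, (if t < k then (1 : ℤ) else 0) = k := by
  rw [Finset.sum_boole]
  have h1 : (Finset.range N).filter (fun t => t < k) = Finset.range k := by
    ext t
    simp only [Finset.mem_filter, Finset.mem_range]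
    omega
  rw [h1, Finset.card_range]

/-- Number the points of `S` by `t = 0, ..., N - 1`, `N = S.card` (`S.equivFin`). The peak of the point `t` is
`p t = Nat.findGreatest (fun q => t < F 1 q) (L - 1)`, and `n t = ν` if `p t + 1 = L`, and otherwise `n t` is the number of
`r ∈ Finset.Icc 1 (min ν (p t + 1))` with `F r (p t + 1) ≤ t`.
CLAIM: for `1 ≤ q < L`, `1 ≤ r ≤ min ν q`: `pref (p t) (n t) q r ↔ t < F r q`.
* `q ≤ p t`: `t < F 1 (p t) ≤ F 1 q ≤ F r q` (`F 1` is antitone on `[1, L-1]`: `row` and `step`; here `p t ≥ 1`).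
* `q = p t + 1`: `F · q` is monotone on `[1, min ν q]` (`row`), so the `r` with `F r q ≤ t` form an initial interval `[1, n t]`, hence
  `n t < r ↔ t < F r q`.
* `q ≥ p t + 2`: `F r q ≤ F (min ν q) q ≤ F 1 (q - 1) ≤ F 1 (p t + 1) ≤ t` (as `p t + 1 ≤ L - 1` is not `≤ findGreatest`).
ADMISSIBLE: `1 ≤ n t` as `F 1 (p t + 1) ≤ t`; `n t ≤ min ν (p t + 1)`; `p t ≤ L - 1 < L`; if `p t + 1 = L` then `n t = ν ≤ L`.
LOAD: for all `q, r` as in the claim `F r q ≤ N` (by `row`, `step`, `top`), so the number of `t < N` with `t < F r q` is `F r q`. Sum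
`pat_pref` over the points and exchange the sums; this is `ld ν L N F l`. -/
theorem realize {ι : Type*} (S : Finset ι) {ν L : ℕ} (hν : 1 ≤ ν) (hL : ν ≤ L) (hL2 : 2 ≤ L)
    (F : ℕ → ℕ → ℕ) (hF : Mon ν L S.card F) :
    ∃ p n : ι → ℕ, (∀ i ∈ S, Adm L ν (p i) (n i)) ∧
      ∀ l, l < L → ∑ i ∈ S, (pat ν (p i) (n i) l : ℤ) = ld ν L S.card F l := by
  classical
  choose P Q hA hP using RealF_pt hν hL hL2 hF
  refine ⟨fun i => if h : i ∈ S then P (S.equivFin ⟨i, h⟩) else 0,
    fun i => if h : i ∈ S then Q (S.equivFin ⟨i, h⟩) else 0, ?_, ?_⟩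
  · intro i hi
    simp only [dif_pos hi]
    exact hA _
  · intro l hl
    have h1 : ∑ i ∈ S, (pat ν (if h : i ∈ S then P (S.equivFin ⟨i, h⟩) else 0)
        (if h : i ∈ S then Q (S.equivFin ⟨i, h⟩) else 0) l : ℤ) =
        ∑ t ∈ Finset.range S.card, (pat ν (P t) (Q t) l : ℤ) := by
      rw [← Finset.sum_coe_sort S, ← Fin.sum_univ_eq_sum_range
        (fun t => (pat ν (P t) (Q t) l : ℤ)), ← Equiv.sum_comp S.equivFin]
      refine Finset.sum_congr rfl fun i _ => ?_
      rw [dif_pos i.2, dif_pos i.2]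
    rw [h1]
    have h2 : ∀ t ∈ Finset.range S.card, (pat ν (P t) (Q t) l : ℤ) =
        ∑ r ∈ Finset.Icc 1 (min ν l), (if t < F r l then (1 : ℤ) else 0) + ((ν - l : ℕ) : ℤ) -
          ∑ r ∈ Finset.Icc 1 (min ν (L - 1 - l)), (if t < F r (l + r) then (1 : ℤ) else 0) := by
      intro t _
      rw [pat_pref (hA t) hl]
      congr 1
      · congr 1
        refine Finset.sum_congr rfl fun r hr => ?_
        have hr' := Finset.mem_Icc.1 hr
        have h3 := hP t l r (by omega) hl (by omega) (by omega)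
        by_cases h4 : t < F r l
        · rw [if_pos h4, if_pos (h3.2 h4)]
        · rw [if_neg h4, if_neg (fun h => h4 (h3.1 h))]
      · refine Finset.sum_congr rfl fun r hr => ?_
        have hr' := Finset.mem_Icc.1 hr
        have h3 := hP t (l + r) r (by omega) (by omega) (by omega) (by omega)
        by_cases h4 : t < F r (l + r)
        · rw [if_pos h4, if_pos (h3.2 h4)]
        · rw [if_neg h4, if_neg (fun h => h4 (h3.1 h))]
    rw [Finset.sum_congr rfl h2, Finset.sum_sub_distrib, Finset.sum_add_distrib, Finset.sum_comm]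
    unfold ld
    congr 1
    · congr 1
      · refine Finset.sum_congr rfl fun r hr => ?_
        have hr' := Finset.mem_Icc.1 hr
        exact RealF_count (RealF_le hν hF (by omega) hl (by omega) (by omega))
      · simp
    · rw [Finset.sum_comm]
      refine Finset.sum_congr rfl fun r hr => ?_
      have hr' := Finset.mem_Icc.1 hr
      exact RealF_count (RealF_le hν hF (by omega) (by omega) (by omega) (by omega))

end ShghF
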