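import Pool.Agent.ShghF.NonF
import Pool.Agent.ShghF.RealF
import Pool.Agent.ShghQG.CombA

/-!
# The combinatorial theorem for thin strips
-/

namespace ShghF

open ShghQ

theorem CombF_tri (X L : ℕ) (h : L ≤ X) :
    ∑ l ∈ Finset.range L, (X - l) + tri (X - L) = tri X := by
  induction L with
  | zero => simp
  | succ L ih =>
    rw [Finset.sum_range_succ, ← ih (by omega)]
    obtain ⟨c, rfl⟩ : ∃ c, X = L + 1 + c := ⟨X - (L + 1), by omega⟩
    have e1 : L + 1 + c - L = c + 1 := by omega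
    have e2 : L + 1 + c - (L + 1) = c := by omega
    rw [e1, e2, tri_succ]
    ring

theorem CombF_abs_sum {ι : Type*} (S : Finset ι) (f g : ι → ℤ) (c : ℕ)
    (h : ∀ i ∈ S, |f i - g i| ≤ c) : |∑ i ∈ S, f i - ∑ i ∈ S, g i| ≤ S.card * c := by
  rw [← Finset.sum_sub_distrib]
  calc |∑ i ∈ S, (f i - g i)| ≤ ∑ i ∈ S, |f i - g i| := Finset.abs_sum_le_sum_abs _ _
    _ ≤ ∑ i ∈ S, (c : ℤ) := Finset.sum_le_sum h
    _ = S.card * c := by rw [Finset.sum_const, nsmul_eq_mul]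

theorem CombF_last (L K : ℕ) (hL : 1 ≤ L) (D : ℕ → ℤ)
    (hK : ∀ l, l + 1 < L → |D l - D (l + 1)| ≤ K) :
    ∑ l ∈ Finset.range L, D l ≤ L * D (L - 1) + L * (L * K) := by
  have h1 : ∀ j l, l + j + 1 = L → D l ≤ D (L - 1) + j * K := by
    intro j
    induction j with
    | zero =>
      intro l hl
      have e : l = L - 1 := by omega
      rw [e]
      simp
    | succ j ih =>
      intro l hl
      have h2 := ih (l + 1) (by omega)
      have h3 := hK l (by omega)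
      rw [abs_le] at h3
      push_cast
      linarith [h3.2]
  calc ∑ l ∈ Finset.range L, D l ≤ ∑ l ∈ Finset.range L, (D (L - 1) + L * K) := by
        refine Finset.sum_le_sum fun l hl => ?_
        rw [Finset.mem_range] at hl
        have h2 := h1 (L - 1 - l) l (by omega)
        have h3 : (((L - 1 - l : ℕ) : ℤ)) * K ≤ L * K := by
          refine mul_le_mul_of_nonneg_right ?_ (Int.natCast_nonneg K)
          exact_mod_cast (by omega : L - 1 - l ≤ L)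
        linarith
    _ = L * D (L - 1) + L * (L * K) := by
        rw [Finset.sum_const, Finset.card_range, nsmul_eq_mul]
        ring

/-- `σ / L` everywhere and one more in the first `σ mod L` columns: sum `σ`, differences at most one. -/
theorem exists_sur (L σ : ℕ) (hL : 1 ≤ L) : ∃ w : ℕ → ℤ, (∀ l, 0 ≤ w l) ∧
    ∑ l ∈ Finset.range L, w l = σ ∧ ∀ l, |w l - w (l + 1)| ≤ 1 := by
  refine ⟨fun l => ((σ / L : ℕ) : ℤ) + (if l < σ % L then 1 else 0), ?_, ?_, ?_⟩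
  · intro l
    positivity
  · rw [Finset.sum_add_distrib, Finset.sum_const, Finset.card_range, Finset.sum_boole]
    have h1 : (Finset.range L).filter (fun l => l < σ % L) = Finset.range (σ % L) := by
      ext l
      rw [Finset.mem_filter, Finset.mem_range, Finset.mem_range]
      have := Nat.mod_lt σ (Nat.lt_of_lt_of_le Nat.zero_lt_one hL)
      omega
    rw [h1, Finset.card_range, nsmul_eq_mul]
    exact_mod_cast Nat.div_add_mod σ L
  · intro l
    rw [abs_le]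
    constructor <;> (dsimp only; split_ifs <;> omega)

/-- All points of `V` together. `V` is a nonempty set of points of positive multiplicity. For the values
`ν ∈ V.image μ` let `V ν = V.filter (μ = ν)`, `N ν = (V ν).card`. Choose `ν₀` with `N ν₀ * tri ν₀` maximal (`Finset.exists_max_image`), so
`κ N ν₀ tri ν₀ ≥ Σ_{i ∈ V} tri (μ i) = Σ_{l<L} D l`. For `ν ≠ ν₀` take `nonfiller` and let `A ν l` be its load. The demands
`D' l = D l - Σ_{ν ≠ ν₀} A ν l` have the sum `N ν₀ tri ν₀` (`sum_ld`), `|D' l - D' (l+1)| ≤ K' := K + 2 (κ - 1) m` (there are at most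
`κ - 1` values `ν ≠ ν₀`, all `≤ m`), and `L D' (L-1) ≥ Σ D' l - L² K'`, so `κ L D' (L - 1) ≥ Σ D l - κ L² K'`, which is
`≥ κ L · 6 L ν₀ (K' + 2 ν₀)` by `hB` (`K' ≤ K + 2 κ m`). So `filler` applies. `realize` for every value `ν`, with the set `V ν`; put
`p i = p_{μ i} i`. -/
theorem fill_all {s : ℕ} (μ : Fin s → ℕ) (m κ K L : ℕ) (V : Finset (Fin s)) (hV : V.Nonempty)
    (hm : 1 ≤ m) (hκ1 : 1 ≤ κ)
    (hμ : ∀ i ∈ V, 1 ≤ μ i ∧ μ i ≤ m ∧ 2 * μ i < L) (hκ : (V.image μ).card ≤ κ)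
    (D : ℕ → ℤ) (hK : ∀ l, l + 1 < L → |D l - D (l + 1)| ≤ K)
    (hsum : ∑ l ∈ Finset.range L, D l = ∑ i ∈ V, (tri (μ i) : ℤ))
    (hB : ((κ * L * (L * (K + 2 * κ * m) + 6 * L * m * (K + 2 * κ * m + 2 * m)) : ℕ) : ℤ) ≤
      ∑ l ∈ Finset.range L, D l) :
    ∃ p n : Fin s → ℕ, (∀ i ∈ V, Adm L (μ i) (p i) (n i)) ∧
      ∀ l, l < L → ∑ i ∈ V, (pat (μ i) (p i) (n i) l : ℤ) = D l := by
  classical
  set N : ℕ → ℕ := fun ν => (V.filter (fun i => μ i = ν)).card with hN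
  have himg : ∀ ν ∈ V.image μ, 1 ≤ ν ∧ ν ≤ m ∧ 2 * ν < L := by
    intro ν hν
    obtain ⟨i, hi, rfl⟩ := Finset.mem_image.1 hν
    exact hμ i hi
  have hmaps : ∀ i ∈ V, μ i ∈ V.image μ := fun i hi => Finset.mem_image_of_mem μ hi
  have hsumV : ∑ i ∈ V, (tri (μ i) : ℤ) = ∑ ν ∈ V.image μ, (N ν : ℤ) * tri ν := by
    rw [← Finset.sum_fiberwise_of_maps_to hmaps]
    refine Finset.sum_congr rfl fun ν _ => ?_
    rw [Finset.sum_congr rfl (fun i hi => by rw [(Finset.mem_filter.1 hi).2] :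
      ∀ i ∈ V.filter (fun i => μ i = ν), (tri (μ i) : ℤ) = (tri ν : ℤ)),
      Finset.sum_const, nsmul_eq_mul]
  obtain ⟨ν₀, hν₀, hmax⟩ := Finset.exists_max_image (V.image μ) (fun ν => (N ν : ℤ) * tri ν)
    (hV.image μ)
  obtain ⟨hν₀1, hν₀m, hν₀L⟩ := himg ν₀ hν₀
  have hL1 : 1 ≤ L := by omega
  have hmaxs : ∑ l ∈ Finset.range L, D l ≤ κ * ((N ν₀ : ℤ) * tri ν₀) := by
    rw [hsum, hsumV]
    calc ∑ ν ∈ V.image μ, (N ν : ℤ) * tri ν ≤ ∑ _ν ∈ V.image μ, (N ν₀ : ℤ) * tri ν₀ :=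
          Finset.sum_le_sum hmax
      _ = (V.image μ).card * ((N ν₀ : ℤ) * tri ν₀) := by
          rw [Finset.sum_const, nsmul_eq_mul]
      _ ≤ κ * ((N ν₀ : ℤ) * tri ν₀) := by
          refine mul_le_mul_of_nonneg_right ?_ (by positivity)
          exact_mod_cast hκ
  have hnf : ∀ ν : ℕ, ∃ F : ℕ → ℕ → ℕ, 1 ≤ ν → 2 * ν < L → (Mon ν L (N ν) F ∧
      ∀ l, l + 1 < L → |ld ν L (N ν) F l - ld ν L (N ν) F (l + 1)| ≤ 2 * ν) := by
    intro ν
    by_cases h1 : 1 ≤ ν ∧ 2 * ν < L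
    · obtain ⟨F, hF1, hF2⟩ := nonfiller (ν := ν) (L := L) h1.1 (by omega) (N ν)
      exact ⟨F, fun _ _ => ⟨hF1, hF2⟩⟩
    · exact ⟨fun _ _ => 0, fun h2 h3 => absurd ⟨h2, h3⟩ h1⟩
  choose F hF using hnf
  set S : Finset ℕ := (V.image μ).erase ν₀ with hS
  have hSsub : ∀ ν ∈ S, ν ∈ V.image μ := fun ν hν => (Finset.mem_erase.1 hν).2
  have hScard : S.card ≤ κ := (Finset.card_le_card (Finset.erase_subset _ _)).trans hκ
  set D' : ℕ → ℤ := fun l => D l - ∑ ν ∈ S, ld ν L (N ν) (F ν) l with hD'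
  have hD'def : ∀ l, D' l = D l - ∑ ν ∈ S, ld ν L (N ν) (F ν) l := fun l => rfl
  clear_value D'
  have hsum' : ∑ l ∈ Finset.range L, D' l = (N ν₀ : ℤ) * tri ν₀ := by
    rw [Finset.sum_congr rfl fun l _ => hD'def l, Finset.sum_sub_distrib, Finset.sum_comm,
      Finset.sum_congr rfl (fun ν hν => sum_ld (ν := ν) (L := L)
        (by have := himg ν (hSsub ν hν); omega) (N ν) (F ν)), hsum, hsumV,
      ← Finset.add_sum_erase (V.image μ) _ hν₀]
    ring
  have hK' : ∀ l, l + 1 < L → |D' l - D' (l + 1)| ≤ ((K + 2 * κ * m : ℕ) : ℤ) := by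
    intro l hl
    have h1 := hK l hl
    have h2 := CombF_abs_sum S (fun ν => ld ν L (N ν) (F ν) l)
      (fun ν => ld ν L (N ν) (F ν) (l + 1)) (2 * m) (fun ν hν => by
        obtain ⟨h3, h4, h5⟩ := himg ν (hSsub ν hν)
        have h6 := (hF ν h3 h5).2 l hl
        refine h6.trans ?_
        exact_mod_cast (by omega : 2 * ν ≤ 2 * m))
    have h7 : ((S.card : ℤ)) * ((2 * m : ℕ) : ℤ) ≤ κ * ((2 * m : ℕ) : ℤ) := by
      refine mul_le_mul_of_nonneg_right ?_ (Int.natCast_nonneg _)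
      exact_mod_cast hScard
    rw [hD'def, hD'def]
    rw [abs_le] at h1 h2 ⊢
    push_cast at h1 h2 h7 ⊢
    constructor <;> linarith [h1.1, h1.2, h2.1, h2.2]
  have hB' : ((6 * L * ν₀ * ((K + 2 * κ * m) + 2 * ν₀) : ℕ) : ℤ) ≤ D' (L - 1) := by
    have h1 := CombF_last L (K + 2 * κ * m) hL1 D' hK'
    rw [hsum'] at h1
    have hκz : (1 : ℤ) ≤ κ := by exact_mod_cast hκ1
    have hLz : (1 : ℤ) ≤ L := by exact_mod_cast hL1
    -- cancel κ
    have h2 : ((κ * L * (L * (K + 2 * κ * m) + 6 * L * m * (K + 2 * κ * m + 2 * m)) : ℕ) : ℤ) ≤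
        κ * ((N ν₀ : ℤ) * tri ν₀) := hB.trans hmaxs
    have h3 : ((L * (L * (K + 2 * κ * m) + 6 * L * m * (K + 2 * κ * m + 2 * m)) : ℕ) : ℤ) ≤
        (N ν₀ : ℤ) * tri ν₀ := by
      refine le_of_mul_le_mul_left ?_ (by linarith : (0 : ℤ) < κ)
      refine le_trans (le_of_eq ?_) h2
      push_cast
      ring
    have h4 : (L : ℤ) * ((6 * L * m * (K + 2 * κ * m + 2 * m) : ℕ) : ℤ) ≤ L * D' (L - 1) := by
      push_cast at h1 h3 ⊢
      linarith
    have h5 : ((6 * L * m * (K + 2 * κ * m + 2 * m) : ℕ) : ℤ) ≤ D' (L - 1) :=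
      le_of_mul_le_mul_left h4 (by linarith)
    refine le_trans ?_ h5
    have h6 : 6 * L * ν₀ * ((K + 2 * κ * m) + 2 * ν₀) ≤
        6 * L * m * (K + 2 * κ * m + 2 * m) := by
      refine Nat.mul_le_mul (Nat.mul_le_mul_left _ hν₀m) ?_
      omega
    exact_mod_cast h6
  obtain ⟨F₀, hF₀1, hF₀2⟩ := filler (ν := ν₀) (L := L) (N := N ν₀) (K := K + 2 * κ * m) hν₀1
    (by omega) D' hsum' hK' hB'
  -- the tables
  set T : ℕ → ℕ → ℕ → ℕ := fun ν => if ν = ν₀ then F₀ else F ν with hT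
  have hT0 : T ν₀ = F₀ := if_pos rfl
  have hTne : ∀ ν, ν ≠ ν₀ → T ν = F ν := fun ν h => if_neg h
  clear_value T
  have hTmon : ∀ ν ∈ V.image μ, Mon ν L (N ν) (T ν) := by
    intro ν hν
    by_cases h : ν = ν₀
    · rw [h, hT0]
      exact hF₀1
    · rw [hTne ν h]
      exact (hF ν (himg ν hν).1 (himg ν hν).2.2).1
  have hTld : ∀ l, l < L → ∑ ν ∈ V.image μ, ld ν L (N ν) (T ν) l = D l := by
    intro l hl
    rw [← Finset.add_sum_erase (V.image μ) _ hν₀, hT0, hF₀2 l hl, hD'def l]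
    have h1 : ∑ ν ∈ (V.image μ).erase ν₀, ld ν L (N ν) (T ν) l =
        ∑ ν ∈ S, ld ν L (N ν) (F ν) l :=
      Finset.sum_congr rfl fun ν hν => by rw [hTne ν (Finset.mem_erase.1 hν).1]
    rw [h1]
    ring
  have hre : ∀ ν : ℕ, ∃ p n : Fin s → ℕ, ν ∈ V.image μ →
      ((∀ i ∈ V.filter (fun i => μ i = ν), Adm L ν (p i) (n i)) ∧
        ∀ l, l < L → ∑ i ∈ V.filter (fun i => μ i = ν), (pat ν (p i) (n i) l : ℤ) =
          ld ν L (N ν) (T ν) l) := by
    intro ν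
    by_cases h : ν ∈ V.image μ
    · obtain ⟨p, n, h1, h2⟩ := realize (V.filter (fun i => μ i = ν)) (ν := ν) (L := L)
        (himg ν h).1 (by have := himg ν h; omega) (by have := himg ν h; omega) (T ν)
        (hTmon ν h)
      exact ⟨p, n, fun _ => ⟨h1, h2⟩⟩
    · exact ⟨fun _ => 0, fun _ => 0, fun h2 => absurd h2 h⟩
  choose p n hpn using hre
  refine ⟨fun i => p (μ i) i, fun i => n (μ i) i, ?_, ?_⟩
  · intro i hi
    exact (hpn (μ i) (hmaps i hi)).1 i (Finset.mem_filter.2 ⟨hi, rfl⟩)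
  · intro l hl
    rw [← Finset.sum_fiberwise_of_maps_to hmaps, ← hTld l hl]
    refine Finset.sum_congr rfl fun ν hν => ?_
    rw [← (hpn ν hν).2 l hl]
    refine Finset.sum_congr rfl fun i hi => ?_
    dsimp only
    rw [(Finset.mem_filter.1 hi).2]

/-- `I' = I.filter (1 ≤ μ)`, `V = U.filter (1 ≤ μ)` (all points of `U` of positive multiplicity). `Σ_{l<L} (X - l) = tri X - tri (X - L)`
(`L ≤ X` by `hX`), so by `hcov` (`tri 0 = 0`) the surplus `σ = Σ_{I'} tri (μ i) + Σ_V tri (μ i) - Σ_{l<L} (X - l)` is `≥ 0` (its size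
does not matter). `V` is nonempty, as `Σ_{I'} tri (μ i) ≤ 8 tri (L - 1) = 4 L (L - 1) < L (X - L) ≤ Σ_{l<L} (X - l)`. The demands
`D l = (X - l) - Σ_{i ∈ I'} (μ i - l) + w l` (truncated differences `μ i - l`; `w` from `exists_sur L σ`) have the sum
`Σ_V tri (μ i)` (`ShghQ.Pat_sum`), `|D l - D (l + 1)| ≤ 1 + 8 + 1 = 10`, and
`Σ D l ≥ Σ_{l<L} (X - l) - Σ_{I'} tri (μ i) ≥ L (X - L) - 4 L² = L (X - 5 L)`. `hB` of `fill_all` with `K = 10` follows from
`X - 5 L ≥ κ L (10 + 2 κ m) + 6 κ m L (10 + 2 κ m + 2 m)`; and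
`5 + κ (10 + 2 κ m) + 6 κ m (10 + 2 κ m + 2 m) ≤ 5 + 7 κ m (10 + 2 κ m) + 12 κ m² ≤ 101 κ² m²`, so `hX` suffices. `T = I' ∪ V`, the
points of `I'` get `p = 0`, `n = 1` (`ShghQG.CombA_pat_zero`: `pat ν 0 1 l = ν - l`; admissible as `L ≥ 3`, since `V` is nonempty). Then
`l + Σ_T pat = l + Σ_{I'} (μ i - l) + D l = X + w l ≥ X`. -/
theorem combF {s : ℕ} (μ : Fin s → ℕ) (m κ X L : ℕ) (I U : Finset (Fin s)) (hm : 1 ≤ m)
    (hκ1 : 1 ≤ κ) (hIU : Disjoint I U) (hI8 : I.card ≤ 8) (hI : ∀ i ∈ I, μ i < L)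
    (hU : ∀ i ∈ U, μ i ≤ m ∧ 2 * μ i < L) (hκ : ((U.image μ).erase 0).card ≤ κ) (hL : 1 ≤ L)
    (hX : 101 * κ ^ 2 * m ^ 2 * L ≤ X)
    (hcov : tri X ≤ tri (X - L) + ∑ i ∈ I ∪ U, tri (μ i)) :
    ∃ (T : Finset (Fin s)) (p n : Fin s → ℕ), T ⊆ I ∪ U ∧
      (∀ i ∈ T, Adm L (μ i) (p i) (n i)) ∧
      ∀ l, l < L → X ≤ l + ∑ i ∈ T, pat (μ i) (p i) (n i) l := by
  classical
  have hκm : 1 ≤ κ ^ 2 * m ^ 2 := Nat.one_le_iff_ne_zero.2 (by positivity)
  have hX101 : 101 * L ≤ X := by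
    calc 101 * L = 101 * 1 * L := by ring
      _ ≤ 101 * (κ ^ 2 * m ^ 2) * L := Nat.mul_le_mul_right _ (Nat.mul_le_mul_left _ hκm)
      _ = 101 * κ ^ 2 * m ^ 2 * L := by ring
      _ ≤ X := hX
  have hLX : L ≤ X := by omega
  set I' : Finset (Fin s) := I.filter (fun i => 1 ≤ μ i) with hI'
  set V : Finset (Fin s) := U.filter (fun i => 1 ≤ μ i) with hV
  have htri0 : tri 0 = 0 := rfl
  have hsumI : ∑ i ∈ I', tri (μ i) = ∑ i ∈ I, tri (μ i) := by
    refine Finset.sum_filter_of_ne fun i _ h => ?_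
    by_contra h1
    have h2 : μ i = 0 := by omega
    rw [h2] at h
    exact h htri0
  have hsumV : ∑ i ∈ V, tri (μ i) = ∑ i ∈ U, tri (μ i) := by
    refine Finset.sum_filter_of_ne fun i _ h => ?_
    by_contra h1
    have h2 : μ i = 0 := by omega
    rw [h2] at h
    exact h htri0
  have htX := CombF_tri X L hLX
  have hcov2 : ∑ l ∈ Finset.range L, (X - l) ≤ ∑ i ∈ I', tri (μ i) + ∑ i ∈ V, tri (μ i) := by
    rw [Finset.sum_union hIU] at hcov
    rw [hsumI, hsumV]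
    omega
  obtain ⟨σ, hσ⟩ := Nat.exists_eq_add_of_le hcov2
  obtain ⟨w, hw0, hwsum, hw1⟩ := exists_sur L σ hL
  have hI'8 : I'.card ≤ 8 := (Finset.card_filter_le _ _).trans hI8
  -- the sum over `I'`
  have hI'tri : ∑ i ∈ I', tri (μ i) ≤ 4 * (L * L) := by
    calc ∑ i ∈ I', tri (μ i) ≤ ∑ _i ∈ I', tri (L - 1) := by
          refine Finset.sum_le_sum fun i hi => tri_mono ?_
          have := hI i (Finset.mem_filter.1 hi).1
          omega
      _ = I'.card * tri (L - 1) := by rw [Finset.sum_const, smul_eq_mul]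
      _ ≤ 8 * tri (L - 1) := Nat.mul_le_mul_right _ hI'8
      _ = 4 * (2 * tri (L - 1)) := by ring
      _ = 4 * ((L - 1) * (L - 1 + 1)) := by rw [two_mul_tri]
      _ ≤ 4 * (L * L) := by
          refine Nat.mul_le_mul_left _ (Nat.mul_le_mul ?_ ?_) <;> omega
  have hXl : L * (X - L) ≤ ∑ l ∈ Finset.range L, (X - l) := by
    calc L * (X - L) = ∑ _l ∈ Finset.range L, (X - L) := by
          rw [Finset.sum_const, Finset.card_range, smul_eq_mul]
      _ ≤ ∑ l ∈ Finset.range L, (X - l) := by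
          refine Finset.sum_le_sum fun l hl => ?_
          rw [Finset.mem_range] at hl
          omega
  have hVne : V.Nonempty := by
    rw [Finset.nonempty_iff_ne_empty]
    intro h
    rw [h, Finset.sum_empty, add_zero] at hcov2
    have h1 : L * (X - L) ≤ 4 * (L * L) := hXl.trans (hcov2.trans hI'tri)
    have h2 : L * (100 * L) ≤ L * (X - L) := Nat.mul_le_mul_left _ (by omega)
    have h3 : 1 ≤ L * L := Nat.one_le_iff_ne_zero.2 (by positivity)
    nlinarith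
  set D : ℕ → ℤ := fun l => ((X - l : ℕ) : ℤ) - ∑ i ∈ I', ((μ i - l : ℕ) : ℤ) + w l with hD
  have hDdef : ∀ l, D l = ((X - l : ℕ) : ℤ) - ∑ i ∈ I', ((μ i - l : ℕ) : ℤ) + w l :=
    fun l => rfl
  clear_value D
  have hDsum0 : ∑ l ∈ Finset.range L, D l = ∑ l ∈ Finset.range L, ((X - l : ℕ) : ℤ) -
      ∑ i ∈ I', (tri (μ i) : ℤ) + σ := by
    rw [Finset.sum_congr rfl fun l _ => hDdef l, Finset.sum_add_distrib,
      Finset.sum_sub_distrib, hwsum, Finset.sum_comm]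
    congr 2
    refine Finset.sum_congr rfl fun i hi => ?_
    have h1 := Pat_sum (μ i) L (hI i (Finset.mem_filter.1 hi).1).le
    exact_mod_cast h1
  have hDsum : ∑ l ∈ Finset.range L, D l = ∑ i ∈ V, (tri (μ i) : ℤ) := by
    rw [hDsum0]
    have h1 : ((∑ i ∈ I', tri (μ i) + ∑ i ∈ V, tri (μ i) : ℕ) : ℤ) =
        ((∑ l ∈ Finset.range L, (X - l) + σ : ℕ) : ℤ) := by rw [hσ]
    rw [Nat.cast_add, Nat.cast_add, Nat.cast_sum, Nat.cast_sum, Nat.cast_sum] at h1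
    linarith
  have hDK : ∀ l, l + 1 < L → |D l - D (l + 1)| ≤ ((10 : ℕ) : ℤ) := by
    intro l hl
    have h1 := hw1 l
    have h2 := CombF_abs_sum I' (fun i => ((μ i - l : ℕ) : ℤ))
      (fun i => ((μ i - (l + 1) : ℕ) : ℤ)) 1 (fun i _ => by
        rw [abs_le]
        constructor <;> omega)
    have h3 : (I'.card : ℤ) * ((1 : ℕ) : ℤ) ≤ 8 := by
      push_cast
      rw [mul_one]
      exact_mod_cast hI'8
    have h4 : ((X - l : ℕ) : ℤ) - ((X - (l + 1) : ℕ) : ℤ) = 1 := by omega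
    rw [hDdef, hDdef]
    rw [abs_le] at h1 h2 ⊢
    push_cast at h1 h2 h3 h4 ⊢
    constructor <;> linarith [h1.1, h1.2, h2.1, h2.2]
  have hκV : (V.image μ).card ≤ κ := by
    refine le_trans (Finset.card_le_card ?_) hκ
    intro ν hν
    obtain ⟨i, hi, rfl⟩ := Finset.mem_image.1 hν
    rw [hV, Finset.mem_filter] at hi
    rw [Finset.mem_erase]
    exact ⟨by omega, Finset.mem_image_of_mem μ hi.1⟩
  have hμV : ∀ i ∈ V, 1 ≤ μ i ∧ μ i ≤ m ∧ 2 * μ i < L := by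
    intro i hi
    rw [hV, Finset.mem_filter] at hi
    exact ⟨hi.2, hU i hi.1⟩
  have hBig : ((κ * L * (L * (10 + 2 * κ * m) +
      6 * L * m * (10 + 2 * κ * m + 2 * m)) : ℕ) : ℤ) ≤ ∑ l ∈ Finset.range L, D l := by
    have h1 : (5 + κ * (10 + 2 * κ * m) + 6 * κ * m * (10 + 2 * κ * m + 2 * m)) ≤
        101 * κ ^ 2 * m ^ 2 := by
      have a1 : 1 * 1 ≤ κ ^ 2 * m ^ 2 := by simpa using hκm
      have a2 : κ * 1 ≤ κ ^ 2 * m ^ 2 := Nat.mul_le_mul (Nat.le_self_pow (by norm_num) κ)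
        (Nat.one_le_iff_ne_zero.2 (by positivity))
      have a3 : κ ^ 2 * m ≤ κ ^ 2 * m ^ 2 :=
        Nat.mul_le_mul_left _ (Nat.le_self_pow (by norm_num) m)
      have a4 : κ * m ≤ κ ^ 2 * m ^ 2 := Nat.mul_le_mul (Nat.le_self_pow (by norm_num) κ)
        (Nat.le_self_pow (by norm_num) m)
      have a5 : κ * m ^ 2 ≤ κ ^ 2 * m ^ 2 :=
        Nat.mul_le_mul_right _ (Nat.le_self_pow (by norm_num) κ)
      nlinarith
    have h2 : (5 + κ * (10 + 2 * κ * m) + 6 * κ * m * (10 + 2 * κ * m + 2 * m)) * L ≤ X :=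
      (Nat.mul_le_mul_right _ h1).trans hX
    have h3 : ((∑ i ∈ I', tri (μ i) : ℕ) : ℤ) ≤ 4 * (L * L) := by exact_mod_cast hI'tri
    have h4 : ((L * (X - L) : ℕ) : ℤ) ≤ ((∑ l ∈ Finset.range L, (X - l) : ℕ) : ℤ) := by
      exact_mod_cast hXl
    rw [Nat.cast_sum] at h3 h4
    have h5 : ((X - L : ℕ) : ℤ) = X - L := by omega
    rw [Nat.cast_mul, h5] at h4
    have h6 : (((5 + κ * (10 + 2 * κ * m) + 6 * κ * m * (10 + 2 * κ * m + 2 * m)) * L : ℕ) : ℤ)
        ≤ X := by exact_mod_cast h2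
    have h7 := mul_le_mul_of_nonneg_left h6 (Int.natCast_nonneg L)
    rw [hDsum0]
    have h8 : (0 : ℤ) ≤ σ := Int.natCast_nonneg σ
    push_cast at h3 h4 h7 ⊢
    linarith
  obtain ⟨p, n, hA, hload⟩ := fill_all μ m κ 10 L V hVne hm hκ1 hμV hκV D hDK hDsum hBig
  have hL3 : 3 ≤ L := by
    obtain ⟨i, hi⟩ := hVne
    have := hμV i hi
    omega
  have hIV : Disjoint I' V :=
    Finset.disjoint_of_subset_left (Finset.filter_subset _ _)
      (Finset.disjoint_of_subset_right (Finset.filter_subset _ _) hIU)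
  refine ⟨I' ∪ V, fun i => if i ∈ V then p i else 0, fun i => if i ∈ V then n i else 1, ?_, ?_, ?_⟩
  · exact Finset.union_subset_union (Finset.filter_subset _ _) (Finset.filter_subset _ _)
  · intro i hi
    by_cases h : i ∈ V
    · dsimp only
      rw [if_pos h, if_pos h]
      exact hA i h
    · have h1 : i ∈ I' := (Finset.mem_union.1 hi).resolve_right h
      dsimp only
      rw [if_neg h, if_neg h]
      exact ⟨le_refl 1, (Finset.mem_filter.1 h1).2, by omega, by omega, by omega⟩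
  · intro l hl
    have h1 : ((∑ i ∈ I' ∪ V, pat (μ i) (if i ∈ V then p i else 0) (if i ∈ V then n i else 1) l
        : ℕ) : ℤ) = ∑ i ∈ I', ((μ i - l : ℕ) : ℤ) + D l := by
      rw [Finset.sum_union hIV, Nat.cast_add, Nat.cast_sum, Nat.cast_sum, ← hload l hl]
      congr 1
      · refine Finset.sum_congr rfl fun i hi => ?_
        have h2 : i ∉ V := Finset.disjoint_left.1 hIV hi
        rw [if_neg h2, if_neg h2, ShghQG.CombA_pat_zero]
      · refine Finset.sum_congr rfl fun i hi => ?_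
        rw [if_pos hi, if_pos hi]
    rw [hDdef l] at h1
    have h2 := hw0 l
    have h3 : (X : ℤ) ≤ ((l + ∑ i ∈ I' ∪ V, pat (μ i) (if i ∈ V then p i else 0)
        (if i ∈ V then n i else 1) l : ℕ) : ℤ) := by
      rw [Nat.cast_add, h1]
      have h4 : ((X - l : ℕ) : ℤ) = X - l := by omega
      rw [h4]
      linarith
    exact_mod_cast h3

end ShghF
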