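import Pool.Agent.ShghF.CombF
import Pool.Agent.ShghQG.AlgA
import Pool.Agent.ShghQG.Simple
import Pool.Agent.ShghQG.Final

/-!
# Thin strips: generic points
-/

namespace ShghF

open ShghQ

/-- As `ShghQG.exists_configA`: `combF` with `X = δ + 1`, `L = δ + 1 - μ i0` (so `X - L = μ i0`), `U = univ \ insert i0 I`, and
`ShghQG.algA` for the infinite field `FractionRing k[ξ]`. -/
theorem exists_configF {k : Type*} [Field k] [Infinite k] {s : ℕ} (μ : Fin s → ℕ) (m κ δ : ℕ)
    (i0 : Fin s) (I : Finset (Fin s)) (hm : 1 ≤ m) (hκ1 : 1 ≤ κ) (hi0 : i0 ∉ I)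
    (hI8 : I.card ≤ 8) (h0 : μ i0 ≤ δ) (hI : ∀ i ∈ I, μ i + μ i0 ≤ δ)
    (hU : ∀ i, i ≠ i0 → i ∉ I → μ i ≤ m ∧ 2 * μ i + μ i0 ≤ δ)
    (hκ : (((Finset.univ \ insert i0 I).image μ).erase 0).card ≤ κ)
    (hX : 101 * κ ^ 2 * m ^ 2 * (δ + 1 - μ i0) ≤ δ + 1)
    (hcov : tri (δ + 1) ≤ ∑ i, tri (μ i)) :
    ∃ P : Fin s → Fin 2 → FractionRing (Polynomial (FractionRing (Polynomial k))),
      ∀ f ∈ ShghT.LS δ μ P, f = 0 := by
  classical
  set U : Finset (Fin s) := Finset.univ \ insert i0 I with hUdef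
  have hIU : Disjoint I U := by
    rw [Finset.disjoint_left]
    intro i hi hiU
    rw [hUdef, Finset.mem_sdiff] at hiU
    exact hiU.2 (Finset.mem_insert_of_mem hi)
  have hi0U : i0 ∉ I ∪ U := by
    rw [Finset.mem_union]
    rintro (h | h)
    · exact hi0 h
    · rw [hUdef, Finset.mem_sdiff] at h
      exact h.2 (Finset.mem_insert_self _ _)
  have huniv : (Finset.univ : Finset (Fin s)) = insert i0 (I ∪ U) := by
    ext i
    simp only [Finset.mem_univ, true_iff]
    by_cases h1 : i = i0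
    · rw [h1]
      exact Finset.mem_insert_self _ _
    · by_cases h2 : i ∈ I
      · exact Finset.mem_insert_of_mem (Finset.mem_union_left _ h2)
      · refine Finset.mem_insert_of_mem (Finset.mem_union_right _ ?_)
        rw [hUdef, Finset.mem_sdiff, Finset.mem_insert]
        exact ⟨Finset.mem_univ _, by rintro (h | h) <;> contradiction⟩
  have hsub : δ + 1 - (δ + 1 - μ i0) = μ i0 := by omega
  have hcov' : tri (δ + 1) ≤ tri (δ + 1 - (δ + 1 - μ i0)) + ∑ i ∈ I ∪ U, tri (μ i) := by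
    rw [huniv, Finset.sum_insert hi0U] at hcov
    rw [hsub]
    exact hcov
  obtain ⟨T, p, n, hT, hA, hc⟩ := combF μ m κ (δ + 1) (δ + 1 - μ i0) I U hm hκ1 hIU hI8
    (fun i hi => by
      have := hI i hi
      omega)
    (fun i hi => by
      rw [hUdef, Finset.mem_sdiff, Finset.mem_insert, not_or] at hi
      have := hU i hi.2.1 hi.2.2
      exact ⟨this.1, by omega⟩)
    hκ (by omega) hX hcov'
  have hinf : Infinite (FractionRing (Polynomial k)) :=
    Infinite.of_injective (algebraMap (Polynomial k) (FractionRing (Polynomial k)))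
      (IsFractionRing.injective _ _)
  obtain ⟨P, hP⟩ := ShghQG.algA (K := FractionRing (Polynomial k)) μ δ i0 T p n
    (fun h => hi0U (hT h)) h0 hA hc
  exact ⟨P, fun f hf => hP f hf.1 hf.2⟩

/-- As `ShghQG.finalA`: `ShghQG.final_of`; `exists_configF` for `μ` itself (with `κ`), and for `Fin.append μ 1` with `κ + 1 ≤ 2 κ`
instead of `κ` (`Fin.castAdd n i0`, `I.map (Fin.castAddEmb n)`, `ShghQG.card_append` with `S = insert i0 I`,
`ShghQG.Final_mem`, `ShghQG.Final_not_mem`, `ShghQG.Final_cov` (import `Pool.Agent.ShghQG.Final`); for the new points `1 ≤ m` and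
`2 + μ i0 ≤ δ`). -/
theorem thin {k : Type*} [Field k] {s : ℕ} (P : Fin s → Fin 2 → k)
    (hP : AlgebraicIndependent (⊥ : Subfield k) (fun ij : Fin s × Fin 2 => P ij.1 ij.2))
    (δ : ℕ) (μ : Fin s → ℕ) (m κ : ℕ) (i0 : Fin s) (I : Finset (Fin s)) (hm : 1 ≤ m)
    (hκ1 : 1 ≤ κ) (hi0 : i0 ∉ I) (hI8 : I.card ≤ 8) (h0 : μ i0 + 2 ≤ δ)
    (hI : ∀ i ∈ I, μ i + μ i0 ≤ δ)
    (hU : ∀ i, i ≠ i0 → i ∉ I → μ i ≤ m ∧ 2 * μ i + μ i0 ≤ δ)
    (hκ : (((Finset.univ \ insert i0 I).image μ).erase 0).card ≤ κ)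
    (hX : 404 * κ ^ 2 * m ^ 2 * (δ + 1 - μ i0) ≤ δ + 1) :
    (Module.finrank k (ShghT.LS δ μ P) : ℤ) =
      max 0 (((δ + 2).choose 2 : ℤ) - ∑ i, ((μ i + 1).choose 2 : ℤ)) := by
  classical
  have hX' : 101 * (2 * κ) ^ 2 * m ^ 2 * (δ + 1 - μ i0) ≤ δ + 1 := by
    calc 101 * (2 * κ) ^ 2 * m ^ 2 * (δ + 1 - μ i0)
        = 404 * κ ^ 2 * m ^ 2 * (δ + 1 - μ i0) := by ring
      _ ≤ δ + 1 := hX
  refine ShghQG.final_of P hP δ μ (fun hcov => ?_) (fun n hn => ?_)
  · exact exists_configF (k := AlgebraicClosure k) μ m (2 * κ) δ i0 I hm (by omega) hi0 hI8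
      (by omega) hI hU (hκ.trans (by omega)) hX' hcov
  · have hins : (insert i0 I).map (Fin.castAddEmb n) =
        insert (Fin.castAdd n i0) (I.map (Fin.castAddEmb n)) := by
      rw [Finset.map_insert]
      rfl
    refine exists_configF (k := AlgebraicClosure k) (Fin.append μ fun _ : Fin n => 1) m (2 * κ) δ
      (Fin.castAdd n i0) (I.map (Fin.castAddEmb n)) hm (by omega)
      ?_ ?_ ?_ ?_ ?_ ?_ ?_ (ShghQG.Final_cov δ μ n hn)
    · intro h
      obtain ⟨j, hj, h1⟩ := ShghQG.Final_mem n I _ h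
      have h2 : i0 = j := Fin.castAdd_injective s n h1
      exact hi0 (h2 ▸ hj)
    · rw [Finset.card_map]
      exact hI8
    · rw [Fin.append_left]
      omega
    · intro i hi
      obtain ⟨j, hj, rfl⟩ := ShghQG.Final_mem n I i hi
      rw [Fin.append_left, Fin.append_left]
      exact hI j hj
    · intro i
      refine Fin.addCases (fun i => ?_) (fun j => ?_) i
      · intro h1 h2
        rw [Fin.append_left, Fin.append_left]
        exact hU i (fun h => h1 (by rw [h])) (ShghQG.Final_not_mem n I i h2)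
      · intro _ _
        rw [Fin.append_right, Fin.append_left]
        exact ⟨hm, by omega⟩
    · have h1 := ShghQG.card_append μ n (insert i0 I)
      rw [hins] at h1
      exact h1.trans (by omega)
    · rw [Fin.append_left]
      exact hX'

end ShghF
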