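import Mathlib

/-!
# The recursion from the right to the left
-/

namespace ShghF

/-- Induction on `j ≤ L`: there is `F` with the equation for all `p` with `L ≤ p + j`. Step: change `F` only in the column
`p₀ = L - 1 - j` (if `p₀ ≥ 1`): the right sides of the equations for `p > p₀` only use columns `> p > p₀`, and the right side for
`p₀` uses only columns `p₀ + t`, `t ≥ 1`. -/
theorem exists_rec (ν L N : ℕ) (D : ℕ → ℤ) :
    ∃ F : ℕ → ℕ → ℤ, ∀ p, 1 ≤ p → p < L → ∀ r,
      F r p = (D p - (N : ℤ) * ((ν - p : ℕ) : ℤ) +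
        ∑ t ∈ Finset.Icc 1 (min ν (L - 1 - p)), F t (p + t) + (r : ℤ) - 1) /
          ((min ν p : ℕ) : ℤ) := by
  have key : ∀ j : ℕ, ∃ F : ℕ → ℕ → ℤ, ∀ p, 1 ≤ p → p < L → L ≤ p + j → ∀ r,
      F r p = (D p - (N : ℤ) * ((ν - p : ℕ) : ℤ) +
        ∑ t ∈ Finset.Icc 1 (min ν (L - 1 - p)), F t (p + t) + (r : ℤ) - 1) /
          ((min ν p : ℕ) : ℤ) := by
    intro j
    induction j with
    | zero => exact ⟨fun _ _ => 0, fun p _ h2 h3 => absurd h2 (by omega)⟩
    | succ j ih =>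
      obtain ⟨F, hF⟩ := ih
      refine ⟨fun r q => if q = L - 1 - j then
          (D q - (N : ℤ) * ((ν - q : ℕ) : ℤ) +
            ∑ t ∈ Finset.Icc 1 (min ν (L - 1 - q)), F t (q + t) + (r : ℤ) - 1) /
              ((min ν q : ℕ) : ℤ) else F r q, ?_⟩
      intro p h1 h2 h3 r
      have hs : ∑ t ∈ Finset.Icc 1 (min ν (L - 1 - p)), (if p + t = L - 1 - j then
          (D (p + t) - (N : ℤ) * ((ν - (p + t) : ℕ) : ℤ) +
            ∑ s ∈ Finset.Icc 1 (min ν (L - 1 - (p + t))), F s (p + t + s) + (t : ℤ) - 1) /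
              ((min ν (p + t) : ℕ) : ℤ) else F t (p + t)) =
          ∑ t ∈ Finset.Icc 1 (min ν (L - 1 - p)), F t (p + t) := by
        refine Finset.sum_congr rfl fun t ht => ?_
        rw [Finset.mem_Icc] at ht
        rw [if_neg (by omega)]
      simp only [hs]
      by_cases hp : p = L - 1 - j
      · rw [if_pos hp]
      · rw [if_neg hp]
        exact hF p h1 h2 (by omega) r
  obtain ⟨F, hF⟩ := key L
  exact ⟨F, fun p h1 h2 r => hF p h1 h2 (by omega) r⟩

end ShghF
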