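import Pool.Agent.ShghQ.Pat

/-!
# Thin strips: definitions

See `README.md` for the whole proof.
-/

namespace ShghF

open ShghQ

/-- A point with the pattern `pat ν p n` prefers the column `q` to the column `q - r`. -/
def pref (p n q r : ℕ) : Prop := q ≤ p ∨ (q = p + 1 ∧ n < r)

instance (p n q r : ℕ) : Decidable (pref p n q r) :=
  inferInstanceAs (Decidable (q ≤ p ∨ (q = p + 1 ∧ n < r)))

/-- `F r p` (for `1 ≤ r ≤ min ν p`, `1 ≤ p < L`) is the number of points (among `N` points of multiplicity `ν`)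
which prefer the column `p` to the column `p - r`; these numbers are monotone in the order
`F 1 (L-1) ≤ F 2 (L-1) ≤ ... ≤ F ν (L-1) ≤ F 1 (L-2) ≤ ...`. -/
structure Mon (ν L N : ℕ) (F : ℕ → ℕ → ℕ) : Prop where
  row : ∀ r p, 1 ≤ r → r < ν → r < p → p < L → F r p ≤ F (r + 1) p
  step : ∀ p, 1 ≤ p → p + 1 < L → F (min ν (p + 1)) (p + 1) ≤ F 1 p
  top : F 1 1 ≤ N

/-- The load of the column `l`. -/
def ld (ν L N : ℕ) (F : ℕ → ℕ → ℕ) (l : ℕ) : ℤ :=
  ∑ r ∈ Finset.Icc 1 (min ν l), (F r l : ℤ) + (N : ℤ) * ((ν - l : ℕ) : ℤ) -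
    ∑ r ∈ Finset.Icc 1 (min ν (L - 1 - l)), (F r (l + r) : ℤ)

end ShghF
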