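import Mathlib

/-!
# Even division of an integer
-/

namespace ShghF

theorem HermF_sum (F : ℕ → ℤ) (k : ℕ) :
    ∑ r ∈ Finset.Icc 1 k, F r = ∑ j ∈ Finset.range k, F (j + 1) := by
  induction k with
  | zero => simp
  | succ k ih =>
    rw [Finset.sum_Icc_succ_top (by omega), ih, Finset.sum_range_succ]

theorem HermF_succ (R : ℤ) {k : ℕ} (hk : 1 ≤ k) :
    ∑ j ∈ Finset.range k, (R + 1 + (j : ℤ)) / (k : ℤ) =
      ∑ j ∈ Finset.range k, (R + (j : ℤ)) / (k : ℤ) + 1 := by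
  have hk0 : (k : ℤ) ≠ 0 := by
    have : (0 : ℤ) < k := by exact_mod_cast hk
    exact this.ne'
  have h1 := Finset.sum_range_succ (fun j : ℕ => (R + (j : ℤ)) / (k : ℤ)) k
  have h2 := Finset.sum_range_succ' (fun j : ℕ => (R + (j : ℤ)) / (k : ℤ)) k
  have h3 : (R + (k : ℤ)) / (k : ℤ) = R / k + 1 := by
    rw [Int.add_ediv_of_dvd_right (dvd_refl _), Int.ediv_self hk0]
  have h4 : ∑ j ∈ Finset.range k, (R + 1 + (j : ℤ)) / (k : ℤ) =
      ∑ j ∈ Finset.range k, (R + ((j + 1 : ℕ) : ℤ)) / (k : ℤ) := by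
    refine Finset.sum_congr rfl fun j _ => ?_
    congr 1
    push_cast
    ring
  have h5 : (R + ((0 : ℕ) : ℤ)) / (k : ℤ) = R / k := by
    simp
  rw [h4]
  linarith

theorem HermF_range (R : ℤ) {k : ℕ} (hk : 1 ≤ k) :
    ∑ j ∈ Finset.range k, (R + (j : ℤ)) / (k : ℤ) = R := by
  induction R using Int.induction_on with
  | zero =>
    refine Finset.sum_eq_zero fun j hj => ?_
    have h1 := Finset.mem_range.1 hj
    rw [zero_add]
    exact Int.ediv_eq_zero_of_lt (by positivity) (by exact_mod_cast h1)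
  | succ n ih => rw [HermF_succ _ hk, ih]
  | pred n ih =>
    have h1 := HermF_succ (-(n : ℤ) - 1) hk
    rw [sub_add_cancel, ih] at h1
    linarith

/-- Hermite's identity. Induction is not convenient; write `R = k q + s`, `0 ≤ s < k` (`Int.emod_add_ediv`): then `(R + r - 1) / k`
is `q` if `s + r - 1 < k` and `q + 1` otherwise (for `1 ≤ r ≤ k`), and the second case happens for exactly `s` values of `r`
(`r ∈ Icc (k - s + 1) k`). -/
theorem herm (R : ℤ) {k : ℕ} (hk : 1 ≤ k) :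
    ∑ r ∈ Finset.Icc 1 k, (R + (r : ℤ) - 1) / (k : ℤ) = R := by
  rw [HermF_sum (fun r : ℕ => (R + (r : ℤ) - 1) / (k : ℤ))]
  refine Eq.trans (Finset.sum_congr rfl fun j _ => ?_) (HermF_range R hk)
  congr 1
  push_cast
  ring

/-- `k q ≤ R + r - 1 < k (q + 1)` for the quotient `q`, and `0 ≤ r - 1 < k`. -/
theorem herm_bd (R : ℤ) {k r : ℕ} (hr : 1 ≤ r) (hrk : r ≤ k) :
    |((((R + (r : ℤ) - 1) / (k : ℤ) : ℤ)) : ℚ) - (R : ℚ) / (k : ℚ)| ≤ 1 := by
  have hk : (0 : ℤ) < k := by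
    have : 1 ≤ k := hr.trans hrk
    exact_mod_cast this
  have hkq : (0 : ℚ) < k := by exact_mod_cast hk
  obtain ⟨q, hq⟩ : ∃ q, q = (R + (r : ℤ) - 1) / (k : ℤ) := ⟨_, rfl⟩
  rw [← hq]
  have h1 : q * k ≤ R + (r : ℤ) - 1 := by
    rw [hq]
    exact Int.ediv_mul_le _ hk.ne'
  have h2 : R + (r : ℤ) - 1 < (q + 1) * k := by
    rw [hq]
    exact Int.lt_ediv_add_one_mul_self _ hk
  have h3 : (r : ℤ) ≤ k := by exact_mod_cast hrk
  have h4 : (1 : ℤ) ≤ r := by exact_mod_cast hr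
  have h5 : q * k ≤ R + k := by linarith
  have h6 : R ≤ q * k + k := by linarith
  have h5' : (q : ℚ) * k ≤ R + k := by exact_mod_cast h5
  have h6' : (R : ℚ) ≤ q * k + k := by exact_mod_cast h6
  rw [abs_le]
  constructor
  · have h7 : (R : ℚ) / k ≤ q + 1 := by
      rw [div_le_iff₀ hkq]
      linarith
    linarith
  · have h7 : (q : ℚ) - 1 ≤ R / k := by
      rw [le_div_iff₀ hkq]
      linarith
    linarith

theorem herm_mono (R : ℤ) {k r r' : ℕ} (hk : 1 ≤ k) (h : r ≤ r') :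
    (R + (r : ℤ) - 1) / (k : ℤ) ≤ (R + (r' : ℤ) - 1) / (k : ℤ) := by
  have hk0 : (0 : ℤ) < k := by exact_mod_cast hk
  have h1 : (r : ℤ) ≤ r' := by exact_mod_cast h
  exact Int.ediv_le_ediv hk0 (by linarith)

end ShghF
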