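import Mathlib

/-!
# Monotonicity of the group averages
-/

namespace ShghF

/-- telescoping -/
theorem ZoneF_tele (G : ℕ → ℚ) (a : ℕ) (c : ℚ) (k : ℕ)
    (h : ∀ r, r < k → c ≤ G (a + r) - G (a + r + 1)) : k * c ≤ G a - G (a + k) := by
  induction k with
  | zero => simp
  | succ k ih =>
    have h1 := ih fun r hr => h r (by omega)
    have h2 := h k (by omega)
    have h3 : a + (k + 1) = a + k + 1 := by omega
    rw [h3]
    push_cast
    linarith

/-- Put `H p = G p - G (p + 1)`, `β = B0 / ν²`, `ε = η / ν`, `B = β - L ε`. By `hB`: `B ≥ 9 η`.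
(a) CLAIM: `H p ≥ β - (L - 1 - p) ε ≥ B` for `ν ≤ p ≤ L - 1`, by induction on `L - 1 - p`. For `p = L - 1`: `H p = G (L - 1) ≥ B0 / ν ≥ β`.
For `p ≤ L - 2`: `ν H p ≥ Σ_{r=1}^{ν} H (p + r) - η` (telescoping in `g1`; `H q = 0` for `q ≥ L`, all the other terms are
`≥ B ≥ 0` by induction). If `p + ν ≥ L - 1` the sum contains `H (L - 1) ≥ B0 / ν = ν β`, so `H p ≥ β - ε`. If `p + ν < L - 1` all terms are
`≥ β - (L - 1 - (p + 1)) ε`, so `H p ≥ β - (L - 1 - p) ε`.
(b) Put `X p = 2 G p - G (p + ν) - N`. CLAIM: `X p ≥ (p - 1) B / 3 - η` for `1 ≤ p ≤ ν`. `p = 1`: `g4`. Step (`1 ≤ p < ν`): put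
`η' = p H p - X (p + 1)`, `|η'| ≤ η` by `g3` (`p + 1 + ν = (p + 1) + ν`). Then `X p - X (p + 1) = 2 H p - H (p + ν)`, so
`(p + 2) X (p + 1) = p X p + p H (p + ν) - 2 η' ≥ p ((p - 1) B / 3 - η) + p B - 2 η = (p + 2) (p B / 3 - η)`, where
`H (p + ν) ≥ B` by (a) as `ν ≤ p + ν ≤ 2 ν - 1 ≤ L - 2`.
(c) For `1 ≤ p < ν`: `H p = (X (p + 1) + η') / p ≥ (p B / 3 - 2 η) / p ≥ B / 3 - 2 η ≥ η ≥ 2`. For `ν ≤ p ≤ L - 2`: `H p ≥ B ≥ 2`.
(d) `N - G 1 = (G 1 - G (1 + ν)) - X 1 ≥ (G 1 - G (1 + ν)) - η` by `g4`, and `G 1 - G (1 + ν) = Σ_{p=1}^{ν} H p ≥ H ν ≥ B ≥ η`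
(all terms are `≥ 0`, `ν ≤ L - 2`). -/
theorem zone {ν L : ℕ} (hν : 1 ≤ ν) (hL : 2 * ν + 1 ≤ L) (N B0 η : ℚ) (G : ℕ → ℚ) (hη : 2 ≤ η)
    (hB : η * (9 * (ν : ℚ) ^ 2 + (L : ℚ) * ν) ≤ B0)
    (g0 : ∀ q, L ≤ q → G q = 0) (g2 : B0 ≤ ν * G (L - 1))
    (g1 : ∀ p, ν ≤ p → p + 1 < L →
      G (p + 1) - G (p + 1 + ν) - η ≤ ν * (G p - G (p + 1)))
    (g3 : ∀ p, 1 ≤ p → p < ν →
      |(p : ℚ) * (G p - G (p + 1)) - (2 * G (p + 1) - G (p + 1 + ν) - N)| ≤ η)
    (g4 : |2 * G 1 - G (1 + ν) - N| ≤ η) :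
    (∀ p, 1 ≤ p → p + 1 < L → 2 ≤ G p - G (p + 1)) ∧ G 1 ≤ N := by
  have hν0 : (0 : ℚ) < ν := by exact_mod_cast hν
  have hν1 : (1 : ℚ) ≤ ν := by exact_mod_cast hν
  have hL0 : (0 : ℚ) ≤ L := Nat.cast_nonneg L
  obtain ⟨β, hβ⟩ : ∃ β : ℚ, β = B0 / ν ^ 2 := ⟨_, rfl⟩
  obtain ⟨ε, hε⟩ : ∃ ε : ℚ, ε = η / ν := ⟨_, rfl⟩
  obtain ⟨B, hBdef⟩ : ∃ B : ℚ, B = β - L * ε := ⟨_, rfl⟩
  have hβ1 : β * ν ^ 2 = B0 := by
    rw [hβ]
    field_simp
  have hε1 : ε * ν = η := by
    rw [hε]
    field_simp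
  have hε0 : 0 ≤ ε := by
    rw [hε]
    positivity
  have hB9 : 9 * η ≤ B := by
    have h1 : 9 * η * ν ^ 2 ≤ B * ν ^ 2 := by
      rw [hBdef, sub_mul, hβ1]
      have h3 : (L : ℚ) * ε * ν ^ 2 = L * ν * η := by
        rw [← hε1]
        ring
      rw [h3]
      linarith
    exact le_of_mul_le_mul_right h1 (by positivity)
  have hβ0 : 0 ≤ β := by
    have h1 : 0 ≤ (L : ℚ) * ε := mul_nonneg hL0 hε0
    linarith
  -- (a)
  have ha : ∀ n p, p + n + 1 = L → ν ≤ p → β - n * ε ≤ G p - G (p + 1) := by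
    intro n
    induction n using Nat.strong_induction_on with
    | _ n ih =>
      intro p hp hνp
      have hL1 : (L : ℚ) = p + n + 1 := by
        rw [← hp]
        push_cast
        ring
      rcases Nat.eq_zero_or_pos n with h0 | h0
      · subst h0
        have h1 : p = L - 1 := by omega
        have h2 : G (p + 1) = 0 := g0 _ (by omega)
        rw [h2, h1]
        have h3 : β * ν ≤ G (L - 1) := by
          have h4 : β * ν * ν ≤ G (L - 1) * ν := by
            have h5 : β * ν * ν = B0 := by rw [← hβ1]; ring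
            rw [h5]
            linarith
          exact le_of_mul_le_mul_right h4 hν0
        have h6 : β ≤ β * ν := le_mul_of_one_le_right hβ0 hν1
        simp
        linarith
      · have h1 := g1 p hνp (by omega)
        have hlow : ∀ q, p + 1 ≤ q → q + 1 ≤ L → β - (n - 1) * ε ≤ G q - G (q + 1) := by
          intro q hq hqL
          have h2 := ih (L - 1 - q) (by omega) q (by omega) (by omega)
          have h3 : ((L - 1 - q : ℕ) : ℚ) ≤ (n : ℚ) - 1 := by
            have h4 : L - 1 - q + 1 ≤ n := by omega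
            have h5 : ((L - 1 - q + 1 : ℕ) : ℚ) ≤ n := by exact_mod_cast h4
            push_cast at h5
            linarith
          have h6 := mul_le_mul_of_nonneg_right h3 hε0
          linarith
        have hn1 : (1 : ℚ) ≤ n := by exact_mod_cast h0
        have hnε : 0 ≤ β - (n - 1) * ε := by
          have h3 : ((n : ℚ) - 1) * ε ≤ L * ε := by
            apply mul_le_mul_of_nonneg_right _ hε0
            have : (0 : ℚ) ≤ p := Nat.cast_nonneg p
            linarith
          linarith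
        have hgoal : (β - n * ε) * ν ≤ (G p - G (p + 1)) * ν := by
          have h5 : (β - n * ε) * ν = β * ν - n * η := by rw [← hε1]; ring
          rw [h5]
          by_cases hc : L ≤ p + 1 + ν
          · have h2 : G (p + 1 + ν) = 0 := g0 _ hc
            rw [h2] at h1
            have h3 := ZoneF_tele G (p + 1) 0 (n - 1) (fun r hr =>
              le_trans hnε (hlow (p + 1 + r) (by omega) (by omega)))
            have h4 : p + 1 + (n - 1) = L - 1 := by omega
            rw [h4] at h3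
            have h6 : β * ν ≤ G (L - 1) := by
              have h7 : β * ν * ν ≤ G (L - 1) * ν := by
                have h8 : β * ν * ν = B0 := by rw [← hβ1]; ring
                rw [h8]
                linarith
              exact le_of_mul_le_mul_right h7 hν0
            have h9 : η ≤ n * η := le_mul_of_one_le_left (by linarith) hn1
            linarith
          · have h3 := ZoneF_tele G (p + 1) (β - (n - 1) * ε) ν (fun r hr =>
              hlow (p + 1 + r) (by omega) (by omega))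
            have h4 : (ν : ℚ) * (β - (n - 1) * ε) = β * ν - (n - 1) * η := by
              rw [← hε1]
              ring
            rw [h4] at h3
            linarith
        exact le_of_mul_le_mul_right hgoal hν0
  have ha' : ∀ p, ν ≤ p → p + 1 ≤ L → B ≤ G p - G (p + 1) := by
    intro p hp hpL
    have h1 := ha (L - 1 - p) p (by omega) hp
    have h2 : ((L - 1 - p : ℕ) : ℚ) ≤ L := by
      have h3 : L - 1 - p ≤ L := by omega
      exact_mod_cast h3
    have h4 := mul_le_mul_of_nonneg_right h2 hε0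
    linarith
  -- (b)
  have hb : ∀ p, p + 1 ≤ ν → p * (B / 3) - η ≤ 2 * G (p + 1) - G (p + 1 + ν) - N := by
    intro p
    induction p with
    | zero =>
      intro _
      have h1 := (abs_le.1 g4).1
      simpa using h1
    | succ p ih =>
      intro hp
      have h1 := ih (by omega)
      have h2 := g3 (p + 1) (by omega) (by omega)
      have h3 := ha' (p + 1 + ν) (by omega) (by omega)
      obtain ⟨h4, h5⟩ := abs_le.1 h2
      have hp0 : (0 : ℚ) ≤ p := Nat.cast_nonneg p
      have e1 : p + 1 + 1 + ν = p + 1 + ν + 1 := by omega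
      rw [e1] at h4 h5 ⊢
      push_cast at h4 h5 ⊢
      have h6 : ((p : ℚ) + 1 + 2) * ((p + 1) * (B / 3) - η) ≤
          (p + 1 + 2) * (2 * G (p + 1 + 1) - G (p + 1 + ν + 1) - N) := by
        have h7 := mul_le_mul_of_nonneg_left h1 (by linarith : (0 : ℚ) ≤ (p : ℚ) + 1)
        have h8 := mul_le_mul_of_nonneg_left h3 (by linarith : (0 : ℚ) ≤ (p : ℚ) + 1)
        nlinarith
      exact le_of_mul_le_mul_left h6 (by linarith)
  have hη0 : 0 ≤ η := by linarith
  -- (c)
  have hc : ∀ p, 1 ≤ p → p + 1 < L → 2 ≤ G p - G (p + 1) := by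
    intro p hp hpL
    by_cases h : ν ≤ p
    · have h1 := ha' p h (by omega)
      linarith
    · have h1 := hb p (by omega)
      have h2 := g3 p hp (by omega)
      obtain ⟨h3, h4⟩ := abs_le.1 h2
      have hp1 : (1 : ℚ) ≤ p := by exact_mod_cast hp
      have h5 : (p : ℚ) * 2 ≤ p * (G p - G (p + 1)) := by
        have h6 : (p : ℚ) * (3 * η) ≤ p * (B / 3) :=
          mul_le_mul_of_nonneg_left (by linarith) (by linarith)
        have h7 : (p : ℚ) * 2 ≤ p * η := mul_le_mul_of_nonneg_left hη (by linarith)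
        have h8 : η ≤ p * η := le_mul_of_one_le_left hη0 hp1
        linarith
      exact le_of_mul_le_mul_left h5 (by linarith)
  refine ⟨hc, ?_⟩
  have h1 := ZoneF_tele G 1 0 (ν - 1) (fun r hr => by
    have := hc (1 + r) (by omega) (by omega)
    linarith)
  have e1 : 1 + (ν - 1) = ν := by omega
  rw [e1, mul_zero] at h1
  have h2 := ha' ν le_rfl (by omega)
  have h3 := (abs_le.1 g4).2
  have e2 : 1 + ν = ν + 1 := by omega
  rw [e2] at h3
  linarith

end ShghF
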