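import Pool.Agent.ShghF.SumF
import Pool.Agent.ShghF.HermF
import Pool.Agent.ShghF.ConsF
import Pool.Agent.ShghF.ZoneF

/-!
# The exact filling by the points of one multiplicity
-/

namespace ShghF

open ShghQ

/-- The double sums cancel (integers). -/
theorem FillerF_sum (ν L : ℕ) (F : ℕ → ℕ → ℤ) :
    ∑ l ∈ Finset.range L, ∑ r ∈ Finset.Icc 1 (min ν l), F r l =
      ∑ l ∈ Finset.range L, ∑ r ∈ Finset.Icc 1 (min ν (L - 1 - l)), F r (l + r) := by
  rw [Finset.sum_sigma', Finset.sum_sigma']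
  refine Finset.sum_bij' (fun x _ => ⟨x.1 - x.2, x.2⟩) (fun x _ => ⟨x.1 + x.2, x.2⟩) ?_ ?_ ?_ ?_ ?_
  · rintro ⟨l, r⟩ h
    simp only [Finset.mem_sigma, Finset.mem_range, Finset.mem_Icc] at h ⊢
    omega
  · rintro ⟨l, r⟩ h
    simp only [Finset.mem_sigma, Finset.mem_range, Finset.mem_Icc] at h ⊢
    omega
  · rintro ⟨l, r⟩ h
    simp only [Finset.mem_sigma, Finset.mem_range, Finset.mem_Icc] at h
    have h1 : l - r + r = l := by omega
    simp only [h1]
  · rintro ⟨l, r⟩ h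
    have h1 : l + r - r = l := by omega
    simp only [h1]
  · rintro ⟨l, r⟩ h
    simp only [Finset.mem_sigma, Finset.mem_range, Finset.mem_Icc] at h
    have h1 : l - r + r = l := by omega
    simp only [h1]

/-- Extension by zero beyond the last column. -/
theorem FillerF_ext (ν L : ℕ) (F : ℕ → ℕ → ℤ) {p : ℕ} (hp : p < L) :
    ∑ r ∈ Finset.Icc 1 (min ν (L - 1 - p)), F r (p + r) =
      ∑ r ∈ Finset.Icc 1 ν, (if p + r < L then F r (p + r) else 0) := by
  have hsub : Finset.Icc 1 (min ν (L - 1 - p)) ⊆ Finset.Icc 1 ν := by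
    intro r hr
    rw [Finset.mem_Icc] at hr ⊢
    omega
  rw [← Finset.sum_subset hsub]
  · refine Finset.sum_congr rfl fun r hr => ?_
    rw [Finset.mem_Icc] at hr
    rw [if_pos (by omega)]
  · intro r hr hr'
    rw [Finset.mem_Icc] at hr hr'
    rw [if_neg (by omega)]

theorem FillerF_tel (ν p : ℕ) (G : ℕ → ℚ) :
    ∑ r ∈ Finset.Icc 1 ν, (G (p + r) - G (p + 1 + r)) = G (p + 1) - G (p + 1 + ν) := by
  induction ν with
  | zero => simp
  | succ ν ih =>
    rw [Finset.sum_Icc_succ_top (by omega), ih]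
    have e : p + (ν + 1) = p + 1 + ν := by omega
    rw [e]
    ring_nf

theorem FillerF_diff (ν p : ℕ) (F' : ℕ → ℕ → ℚ) (G : ℕ → ℚ)
    (hθ : ∀ q r, 1 ≤ r → r ≤ ν → r ≤ q → |F' r q - G q| ≤ 1) :
    |∑ r ∈ Finset.Icc 1 ν, F' r (p + r) - ∑ r ∈ Finset.Icc 1 ν, F' r (p + 1 + r) -
      (G (p + 1) - G (p + 1 + ν))| ≤ 2 * ν := by
  rw [← FillerF_tel ν p G, ← Finset.sum_sub_distrib, ← Finset.sum_sub_distrib]
  calc |∑ r ∈ Finset.Icc 1 ν, (F' r (p + r) - F' r (p + 1 + r) - (G (p + r) - G (p + 1 + r)))|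
      ≤ ∑ r ∈ Finset.Icc 1 ν,
        |F' r (p + r) - F' r (p + 1 + r) - (G (p + r) - G (p + 1 + r))| :=
        Finset.abs_sum_le_sum_abs _ _
    _ ≤ ∑ r ∈ Finset.Icc 1 ν, (2 : ℚ) := by
        refine Finset.sum_le_sum fun r hr => ?_
        rw [Finset.mem_Icc] at hr
        have h1 := hθ (p + r) r hr.1 hr.2 (by omega)
        have h2 := hθ (p + 1 + r) r hr.1 hr.2 (by omega)
        rw [abs_le] at h1 h2 ⊢
        constructor <;> linarith [h1.1, h1.2, h2.1, h2.2]
    _ = 2 * ν := by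
        rw [Finset.sum_const, Nat.card_Icc, nsmul_eq_mul]
        simp
        ring

/-- `exists_rec` gives `F` (integers). Write `k p = min ν p ≥ 1`, `R p = D p - N (ν - p) + Σ_{t=1}^{min ν (L-1-p)} F t (p + t)`, so
`F r p = (R p + r - 1) / k p`, and `Σ_{r=1}^{k p} F r p = R p` (`herm`). Put `G p = R p / k p` (rational) for `1 ≤ p < L`, and
`G p = 0` for `p ≥ L`; `θ r q = F r q - G q` for `q < L`, `θ r q = 0` for `q ≥ L`: `|θ r q| ≤ 1` for `1 ≤ r ≤ k q` (`herm_bd`). Put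
`η = K + 2 ν`. The hypotheses of `zone` with `B0 = D (L - 1)`:
* `hB`: `9 ν² + L ν ≤ 6 L ν` as `2 ν ≤ L - 1`.
* `g2`: `ν G (L - 1) = R (L - 1) = D (L - 1)` (`k (L-1) = ν`, empty sum).
* For `ν ≤ p`, `p + 1 < L`: `ν G p - ν G (p + 1) = D p - D (p + 1) + Σ_{r=1}^{ν} (F' r (p + r) - F' r (p + 1 + r))`, `F' r q = F r q` for
  `q < L` and `0` otherwise, `F' = G + θ`, and `Σ_{r=1}^{ν} (G (p + r) - G (p + 1 + r)) = G (p + 1) - G (p + 1 + ν)`. The
  `2 ν` terms `θ` are at most one. This is `g1`.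
* For `1 ≤ p < ν` in the same way (all columns are `< L`, as `p + 1 + ν ≤ 2 ν < L`; `k p = p`, `k (p+1) = p + 1`):
  `p G p - (p + 1) G (p + 1) = D p - D (p + 1) - N + (G (p + 1) - G (p + 1 + ν)) + (θ terms)`; this is `g3`.
* `ld ν L N F l = D l` for `1 ≤ l < L` by `herm` (formula of `ld` with integers `F`), the total of the loads is `N tri ν` (`sum_ld`; its
  proof works for integers, or apply it at the end: see below), so also `ld ... 0 = D 0`, that is
  `D 0 - N ν + Σ_{r=1}^{ν} F r r = 0`. Subtract the equation of `p = 1`, `G 1 = D 1 - N (ν - 1) + Σ_{r=1}^{ν} F r (1 + r)`: `g4`.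
  (To have natural numbers: `sum_ld` is needed for integer `F` here; state and prove the integer version in this file or generalize
  `SumF.lean` by a private lemma for `ℕ → ℕ → ℤ`.)
So `zone` gives `G p - G (p + 1) ≥ 2` for `1 ≤ p`, `p + 1 < L` and `G 1 ≤ N`. Hence: `F r p ≤ F (r + 1) p` (`herm_mono`);
`F (k (p+1)) (p + 1) ≤ G (p + 1) + 1 ≤ G p - 1 ≤ F 1 p`; `F 1 1 = G 1 ≤ N` (`k 1 = 1`); `F r p ≥ 0`, as
`F 1 (L - 1) = D (L - 1) / ν ≥ 0` is the smallest one. The natural numbers are `(F r p).toNat`. -/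
theorem filler {ν L N K : ℕ} (hν : 1 ≤ ν) (hL : 2 * ν + 1 ≤ L) (D : ℕ → ℤ)
    (hsum : ∑ l ∈ Finset.range L, D l = N * tri ν)
    (hK : ∀ l, l + 1 < L → |D l - D (l + 1)| ≤ K)
    (hB : ((6 * L * ν * (K + 2 * ν) : ℕ) : ℤ) ≤ D (L - 1)) :
    ∃ F : ℕ → ℕ → ℕ, Mon ν L N F ∧ ∀ l, l < L → ld ν L N F l = D l := by
  classical
  obtain ⟨F, hF⟩ := exists_rec ν L N D
  set R : ℕ → ℤ := fun p => D p - (N : ℤ) * ((ν - p : ℕ) : ℤ) +
        ∑ t ∈ Finset.Icc 1 (min ν (L - 1 - p)), F t (p + t) with hR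
  have hRdef : ∀ p, R p = D p - (N : ℤ) * ((ν - p : ℕ) : ℤ) +
        ∑ t ∈ Finset.Icc 1 (min ν (L - 1 - p)), F t (p + t) := fun p => rfl
  have hF' : ∀ p, 1 ≤ p → p < L → ∀ r,
      F r p = (R p + (r : ℤ) - 1) / ((min ν p : ℕ) : ℤ) := fun p h1 h2 r => hF p h1 h2 r
  clear_value R
  set G : ℕ → ℚ := fun p => if p < L then (R p : ℚ) / ((min ν p : ℕ) : ℚ) else 0 with hG
  set F1 : ℕ → ℕ → ℚ := fun r q => if q < L then (F r q : ℚ) else 0 with hF1
  have hGlt : ∀ p, p < L → G p = (R p : ℚ) / ((min ν p : ℕ) : ℚ) := fun p hp => if_pos hp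
  have hGge : ∀ p, L ≤ p → G p = 0 := fun p hp => if_neg (by omega)
  have hF1lt : ∀ r q, q < L → F1 r q = (F r q : ℚ) := fun r q hq => if_pos hq
  have hF1ge : ∀ r q, L ≤ q → F1 r q = 0 := fun r q hq => if_neg (by omega)
  have hF1i : ∀ r q, F1 r q = ((if q < L then F r q else 0 : ℤ) : ℚ) := by
    intro r q
    by_cases hq : q < L
    · rw [hF1lt r q hq, if_pos hq]
    · rw [hF1ge r q (by omega), if_neg hq]
      simp
  clear_value G F1
  have hθ : ∀ q r, 1 ≤ r → r ≤ ν → r ≤ q → |F1 r q - G q| ≤ 1 := by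
    intro q r h1 h2 h3
    by_cases hq : q < L
    · rw [hF1lt r q hq, hGlt q hq, hF' q (by omega) hq r]
      exact herm_bd (R q) h1 (by omega)
    · rw [hF1ge r q (by omega), hGge q (by omega)]
      simp
  have hkG : ∀ p, 1 ≤ p → p < L → ((min ν p : ℕ) : ℚ) * G p = R p := by
    intro p h1 h2
    rw [hGlt p h2]
    have h3 : ((min ν p : ℕ) : ℚ) ≠ 0 := by
      have : 1 ≤ min ν p := by omega
      exact_mod_cast (by omega : min ν p ≠ 0)
    field_simp
  have hRq : ∀ p, p < L → (R p : ℚ) = D p - (N : ℚ) * ((ν - p : ℕ) : ℚ) +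
      ∑ r ∈ Finset.Icc 1 ν, F1 r (p + r) := by
    intro p hp
    rw [hRdef p, FillerF_ext ν L F hp]
    rw [Int.cast_add, Int.cast_sub, Int.cast_mul, Int.cast_sum, Int.cast_natCast, Int.cast_natCast]
    congr 1
    exact Finset.sum_congr rfl fun r _ => (hF1i r (p + r)).symm
  have hdiff : ∀ p, p + 1 < L → |((R p : ℚ) - R (p + 1)) + N * ((ν - p : ℕ) : ℚ) -
      N * ((ν - (p + 1) : ℕ) : ℚ) - (G (p + 1) - G (p + 1 + ν))| ≤ K + 2 * ν := by
    intro p hp
    have h1 := FillerF_diff ν p F1 G hθ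
    have h2 := hK p hp
    have h3 : |(D p : ℚ) - D (p + 1)| ≤ K := by exact_mod_cast h2
    rw [hRq p (by omega), hRq (p + 1) hp]
    rw [abs_le] at h1 h3 ⊢
    constructor <;> linarith [h1.1, h1.2, h3.1, h3.2]
  -- the loads
  have hload : ∀ l, l < L → ∑ r ∈ Finset.Icc 1 (min ν l), F r l + (N : ℤ) * ((ν - l : ℕ) : ℤ) -
      ∑ r ∈ Finset.Icc 1 (min ν (L - 1 - l)), F r (l + r) =
        D l - (if l = 0 then R 0 else 0) := by
    intro l hl
    by_cases h0 : l = 0
    · subst h0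
      rw [if_pos rfl, hRdef 0]
      simp
      ring
    · rw [if_neg h0]
      have h1 : ∑ r ∈ Finset.Icc 1 (min ν l), F r l = R l := by
        rw [← herm (R l) (k := min ν l) (by omega)]
        exact Finset.sum_congr rfl fun r _ => hF' l (by omega) hl r
      rw [h1, hRdef l]
      ring
  have hR0 : R 0 = 0 := by
    have h1 : ∑ l ∈ Finset.range L, (∑ r ∈ Finset.Icc 1 (min ν l), F r l +
        (N : ℤ) * ((ν - l : ℕ) : ℤ) - ∑ r ∈ Finset.Icc 1 (min ν (L - 1 - l)), F r (l + r)) =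
          ∑ l ∈ Finset.range L, (D l - (if l = 0 then R 0 else 0)) :=
      Finset.sum_congr rfl fun l hl => hload l (Finset.mem_range.1 hl)
    rw [Finset.sum_sub_distrib, Finset.sum_add_distrib, FillerF_sum ν L F, ← Finset.mul_sum,
      Finset.sum_sub_distrib, hsum, Finset.sum_ite_eq' (Finset.range L) 0 (fun _ => R 0),
      if_pos (Finset.mem_range.2 (by omega))] at h1
    have h2 : ∑ l ∈ Finset.range L, ((ν - l : ℕ) : ℤ) = tri ν := by
      exact_mod_cast Pat_sum ν L (by omega)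
    rw [h2] at h1
    linarith
  have hload' : ∀ l, l < L → ∑ r ∈ Finset.Icc 1 (min ν l), F r l +
      (N : ℤ) * ((ν - l : ℕ) : ℤ) - ∑ r ∈ Finset.Icc 1 (min ν (L - 1 - l)), F r (l + r) =
        D l := by
    intro l hl
    rw [hload l hl, hR0]
    simp
  -- zone
  have hBq : (6 * L * ν * (K + 2 * ν) : ℚ) ≤ (D (L - 1) : ℚ) := by exact_mod_cast hB
  have hνq : (1 : ℚ) ≤ ν := by exact_mod_cast hν
  have hLq : 2 * (ν : ℚ) + 1 ≤ L := by exact_mod_cast hL
  have hKq : (0 : ℚ) ≤ K := Nat.cast_nonneg K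
  have hkL : min ν (L - 1) = ν := by omega
  have hGL : (ν : ℚ) * G (L - 1) = D (L - 1) := by
    have h1 := hkG (L - 1) (by omega) (by omega)
    rw [hkL] at h1
    rw [h1, hRdef (L - 1)]
    have h2 : ν - (L - 1) = 0 := by omega
    have h3 : min ν (L - 1 - (L - 1)) = 0 := by omega
    rw [h2, h3]
    simp
  obtain ⟨hz1, hz2⟩ := zone (L := L) hν hL (N : ℚ) (D (L - 1) : ℚ) ((K : ℚ) + 2 * ν) G
    (by linarith)
    (by
      refine le_trans ?_ hBq
      have h1 : 9 * (ν : ℚ) ^ 2 + L * ν ≤ 6 * L * ν := by nlinarith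
      have h2 : (0 : ℚ) ≤ K + 2 * ν := by linarith
      nlinarith [mul_le_mul_of_nonneg_left h1 h2])
    hGge
    hGL.ge
    (by
      intro p h1 h2
      have h3 := hdiff p h2
      have h4 := hkG p (by omega) (by omega)
      have h5 := hkG (p + 1) (by omega) (by omega)
      have e1 : min ν p = ν := by omega
      have e2 : min ν (p + 1) = ν := by omega
      have e3 : ν - p = 0 := by omega
      have e4 : ν - (p + 1) = 0 := by omega
      rw [e1] at h4
      rw [e2] at h5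
      rw [e3, e4, Nat.cast_zero, mul_zero, ← h4, ← h5] at h3
      rw [abs_le] at h3
      linarith [h3.1])
    (by
      intro p h1 h2
      have h3 := hdiff p (by omega)
      have h4 := hkG p (by omega) (by omega)
      have h5 := hkG (p + 1) (by omega) (by omega)
      have e1 : min ν p = p := by omega
      have e2 : min ν (p + 1) = p + 1 := by omega
      obtain ⟨c, rfl⟩ : ∃ c, ν = p + 1 + c := ⟨ν - (p + 1), by omega⟩
      have e3 : p + 1 + c - p = c + 1 := by omega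
      have e4 : p + 1 + c - (p + 1) = c := by omega
      rw [e1] at h4
      rw [e2] at h5
      rw [e3, e4, ← h4, ← h5] at h3
      rw [abs_le] at h3 ⊢
      push_cast at h3 ⊢
      constructor <;> linarith [h3.1, h3.2])
    (by
      have h3 := hdiff 0 (by omega)
      have h5 := hkG (0 + 1) (by omega) (by omega)
      have e2 : min ν (0 + 1) = 1 := by omega
      obtain ⟨c, rfl⟩ : ∃ c, ν = 1 + c := ⟨ν - 1, by omega⟩
      have e3 : 1 + c - 0 = c + 1 := by omega
      have e4 : 1 + c - (0 + 1) = c := by omega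
      rw [e2] at h5
      rw [e3, e4, hR0, ← h5] at h3
      rw [abs_le] at h3 ⊢
      rw [Nat.zero_add] at h3
      push_cast at h3 ⊢
      constructor <;> linarith [h3.1, h3.2])
  -- positivity
  have hGL1 : 1 ≤ G (L - 1) := by
    have h1 : (ν : ℚ) ≤ 6 * L * ν * (K + 2 * ν) := by
      have h2 : (1 : ℚ) ≤ 6 * L := by linarith
      have h3 : (1 : ℚ) ≤ K + 2 * ν := by linarith
      have h4 : (1 : ℚ) ≤ 6 * L * (K + 2 * ν) := by nlinarith
      nlinarith
    have h2 : (ν : ℚ) ≤ ν * G (L - 1) := by rw [hGL]; exact h1.trans hBq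
    by_contra h3
    rw [not_le] at h3
    nlinarith
  have hG1 : ∀ j p, 1 ≤ p → p + j + 1 = L → 1 ≤ G p := by
    intro j
    induction j with
    | zero =>
      intro p h1 h2
      have e : p = L - 1 := by omega
      rw [e]
      exact hGL1
    | succ j ih =>
      intro p h1 h2
      have h3 := ih (p + 1) (by omega) (by omega)
      have h4 := hz1 p h1 (by omega)
      linarith
  have hF0 : ∀ p r, 1 ≤ r → r ≤ ν → r ≤ p → p < L → 0 ≤ F r p := by
    intro p r h1 h2 h3 h4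
    have h5 := hθ p r h1 h2 h3
    have h6 := hG1 (L - 1 - p) p (by omega) (by omega)
    rw [hF1lt r p h4, abs_le] at h5
    have h7 : (0 : ℚ) ≤ F r p := by linarith [h5.1]
    exact_mod_cast h7
  refine ⟨fun r p => (F r p).toNat, ⟨?_, ?_, ?_⟩, ?_⟩
  · intro r p h1 h2 h3 h4
    refine Int.toNat_le_toNat ?_
    rw [hF' p (by omega) h4 r, hF' p (by omega) h4 (r + 1)]
    exact herm_mono (R p) (by omega) (by omega)
  · intro p h1 h2
    refine Int.toNat_le_toNat ?_
    have h3 := hθ (p + 1) (min ν (p + 1)) (by omega) (by omega) (by omega)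
    have h4 := hθ p 1 (by omega) (by omega) h1
    have h5 := hz1 p h1 h2
    rw [hF1lt _ _ h2, abs_le] at h3
    rw [hF1lt _ _ (by omega), abs_le] at h4
    have h6 : (F (min ν (p + 1)) (p + 1) : ℚ) ≤ F 1 p := by linarith [h3.2, h4.1]
    exact_mod_cast h6
  · have h1 := hF' 1 (by omega) (by omega) 1
    have e1 : min ν 1 = 1 := by omega
    have h2 := hkG 1 (by omega) (by omega)
    rw [e1] at h1 h2
    have h3 : F 1 1 = R 1 := by
      rw [h1]
      simp
    have h4 : (R 1 : ℚ) ≤ N := by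
      rw [← h2]
      simpa using hz2
    have h5 : F 1 1 ≤ N := by
      rw [h3]
      exact_mod_cast h4
    show (F 1 1).toNat ≤ N
    omega
  · intro l hl
    rw [← hload' l hl]
    unfold ld
    congr 1
    · congr 1
      refine Finset.sum_congr rfl fun r hr => ?_
      rw [Finset.mem_Icc] at hr
      exact Int.toNat_of_nonneg (hF0 l r hr.1 (by omega) (by omega) hl)
    · refine Finset.sum_congr rfl fun r hr => ?_
      rw [Finset.mem_Icc] at hr
      exact Int.toNat_of_nonneg (hF0 (l + r) r hr.1 (by omega) (by omega) (by omega))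

end ShghF
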