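import Pool.Agent.ShghF.ConfigF
import Pool.Agent.ShghN.MainN
import Pool.Agent.ShghQG.Main
import Pool.Agent.ShghW.FinalW

/-!
# The tenth multiplicity
-/

namespace ShghF

open ShghQ ShghT

theorem MainF_sum {s : ℕ} (μ : Fin s → ℕ) (c : Fin 9 → Fin s) :
    ∑ l, μ (c l) = μ (c 0) + μ (c 1) + μ (c 2) + μ (c 3) + μ (c 4) + μ (c 5) +
      μ (c 6) + μ (c 7) + μ (c 8) := by
  rw [Fin.sum_univ_succ, Fin.sum_univ_eight]
  have e1 : (Fin.succ 0 : Fin 9) = 1 := rfl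
  have e2 : (Fin.succ 1 : Fin 9) = 2 := rfl
  have e3 : (Fin.succ 2 : Fin 9) = 3 := rfl
  have e4 : (Fin.succ 3 : Fin 9) = 4 := rfl
  have e5 : (Fin.succ 4 : Fin 9) = 5 := rfl
  have e6 : (Fin.succ 5 : Fin 9) = 6 := rfl
  have e7 : (Fin.succ 6 : Fin 9) = 7 := rfl
  have e8 : (Fin.succ 7 : Fin 9) = 8 := rfl
  rw [e1, e2, e3, e4, e5, e6, e7, e8]
  ring

/-- the arithmetic of the second case -/
theorem MainF_two {δ m M0 M1 M2 M3 M4 M5 M6 M7 M8 : ℕ} (hm : 1 ≤ m) (h10 : M1 ≤ M0)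
    (h20 : M2 ≤ M0) (h30 : M3 ≤ M0) (h40 : M4 ≤ M0) (h50 : M5 ≤ M0) (h60 : M6 ≤ M0)
    (h70 : M7 ≤ M0) (h80 : M8 ≤ M0) (h61 : M6 ≤ M1) (h72 : M7 ≤ M2)
    (h012 : M0 + M1 + M2 ≤ δ) (h345 : M3 + M4 + M5 ≤ δ) (_h678 : M6 + M7 + M8 ≤ δ)
    (h1 : 20000 * m ^ 5 ≤ δ)
    (h : 3 * δ < M0 + M1 + M2 + M3 + M4 + M5 + M6 + M7 + M8 + 600 * m ^ 2) : m ^ 5 ≤ M8 := by
  have h25 : m ^ 2 ≤ m ^ 5 := Nat.pow_le_pow_right hm (by norm_num)
  have e1 : δ < M6 + M7 + M8 + 600 * m ^ 2 := by linarith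
  have e2 : M0 < M8 + 600 * m ^ 2 := by linarith
  have e3 : 3 * δ < 9 * M0 + 600 * m ^ 2 := by linarith
  linarith

/-- The case of sorted multiplicities. Put `b = δ - μ (c 0)` and write `c l` for `μ (c l)`; `c 1 + c 2 ≤ b`, `2 c 2 ≤ b`,
so `Σ_{l ≥ 1} c l ≤ c 1 + 7 c 2 ≤ 4 b` (`c l ≤ c 2` for `l ≥ 2`).
(1) If all `μ i ≤ 2` for `i ∉ range c`: `ShghT.final_W` (second alternative). Otherwise `3 ≤ μ i ≤ c 2` for some `i`, so
`b ≥ 6`, `m ≥ 3`.
(2) If `3 δ < Σ c l + 600 m²`: `final_W`, third alternative: `μ i ^ 5 ≤ m ^ 5 ≤ c 8 ≤ c l`. Indeed each of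
`δ - c 0 - c 1 - c 2`, `δ - c 3 - c 4 - c 5`, `δ - c 6 - c 7 - c 8` is `≥ 0` (antitone), so `δ - c 6 - c 7 - c 8 < 600 m²`, and
`c 6 + c 7 ≤ 2 c 2 ≤ b`, so `c 8 + 600 m² > δ - b = c 0`; and `9 c 0 ≥ Σ c l > 3 δ - 600 m²`. So
`9 c 8 > 3 δ - 600 m² - 5400 m² = 3 δ - 6000 m² ≥ 9 m⁵` as `δ ≥ 20000 m⁵ ≥ 3 m⁵ + 2000 m²`.
(3) If `b < 40 κ m`: `thin` with `i0 = c 0`, `I = univ.image c \ {c 0}` (`card = 8`): `μ i + c 0 ≤ δ` for `i ∈ I` (`c l ≤ c 1`),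
`2 μ i + c 0 ≤ δ` for the others (`μ i ≤ c 1`, `μ i ≤ c 2`), `δ + 1 - c 0 = b + 1 ≤ 40 κ m`,
`404 κ² m² (b + 1) ≤ 16160 κ³ m³ ≤ δ`; `insert (c 0) I = univ.image c`.
(4) Otherwise `b ≥ 40 κ m`. If `Σ_{l ≥ 1} (c l + m) + 45 m² ≤ δ`: `ShghQG.main` with the same `i0`, `B = I`
(`c l ≤ c 0`; `12800 κ m⁴ ≤ δ²`, as `20000 κ³ m³ ≤ δ` and `20000 m⁵ ≤ δ` give `δ² ≥ 4 · 10⁸ κ³ m⁸`).
(5) Otherwise `δ < 4 b + 8 m + 45 m² ≤ 4 b + 53 m²`, so `δ ≤ 5 b` (if `5 b < δ` then `b < 53 m²`, `δ < 265 m²`, a contradiction).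
`ShghN.main`: `b ≥ δ / 5 ≥ 3000 m²`; `(3 δ - Σ c l) b ≥ 600 m² · δ / 5 = 120 m² δ ≥ 120 · 20000 κ m² · m² ≥ 700000 κ m⁴`: for this
`δ ≥ 20000 κ³ m³ ≥ 20000 κ m²`. -/
theorem main10_aux {k : Type*} [Field k] {s : ℕ} (P : Fin s → Fin 2 → k)
    (hP : AlgebraicIndependent (⊥ : Subfield k) (fun ij : Fin s × Fin 2 => P ij.1 ij.2))
    (δ : ℕ) (μ : Fin s → ℕ) (c : Fin 9 → Fin s) (hc : Function.Injective c) (m κ : ℕ)
    (hm : 1 ≤ m) (hκ1 : 1 ≤ κ) (hanti : Antitone fun l => μ (c l))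
    (hmax : ∀ i, i ∉ Set.range c → ∀ l, μ i ≤ μ (c l))
    (hstd : ∀ i j l, i ≠ j → i ≠ l → j ≠ l → μ (c i) + μ (c j) + μ (c l) ≤ δ)
    (hU : ∀ i, i ∉ Set.range c → μ i ≤ m)
    (hκ : (((Finset.univ \ Finset.univ.image c).image μ).erase 0).card ≤ κ)
    (h1 : 20000 * m ^ 5 ≤ δ) (h2 : 20000 * κ ^ 3 * m ^ 3 ≤ δ) :
    (Module.finrank k (LS δ μ P) : ℤ) =
      max 0 (((δ + 2).choose 2 : ℤ) - ∑ i, ((μ i + 1).choose 2 : ℤ)) := by
  classical
  have a10 : μ (c 1) ≤ μ (c 0) := hanti (by decide)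
  have a20 : μ (c 2) ≤ μ (c 0) := hanti (by decide)
  have a30 : μ (c 3) ≤ μ (c 0) := hanti (by decide)
  have a40 : μ (c 4) ≤ μ (c 0) := hanti (by decide)
  have a50 : μ (c 5) ≤ μ (c 0) := hanti (by decide)
  have a60 : μ (c 6) ≤ μ (c 0) := hanti (by decide)
  have a70 : μ (c 7) ≤ μ (c 0) := hanti (by decide)
  have a80 : μ (c 8) ≤ μ (c 0) := hanti (by decide)
  have a21 : μ (c 2) ≤ μ (c 1) := hanti (by decide)
  have a61 : μ (c 6) ≤ μ (c 1) := hanti (by decide)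
  have a32 : μ (c 3) ≤ μ (c 2) := hanti (by decide)
  have a42 : μ (c 4) ≤ μ (c 2) := hanti (by decide)
  have a52 : μ (c 5) ≤ μ (c 2) := hanti (by decide)
  have a62 : μ (c 6) ≤ μ (c 2) := hanti (by decide)
  have a72 : μ (c 7) ≤ μ (c 2) := hanti (by decide)
  have a82 : μ (c 8) ≤ μ (c 2) := hanti (by decide)
  have h012 := hstd 0 1 2 (by decide) (by decide) (by decide)
  have h345 := hstd 3 4 5 (by decide) (by decide) (by decide)
  have h678 := hstd 6 7 8 (by decide) (by decide) (by decide)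
  have hsum := MainF_sum μ c
  by_cases hcase1 : ∀ i, i ∉ Set.range c → μ i ≤ 2
  · exact final_W P hP δ μ c hc hmax hstd (Or.inr (Or.inl hcase1))
  push Not at hcase1
  obtain ⟨i1, hi1, hi1'⟩ := hcase1
  have hi11 := hmax i1 hi1 1
  have hi12 := hmax i1 hi1 2
  by_cases hcase2 : 3 * δ < ∑ l, μ (c l) + 600 * m ^ 2
  · refine final_W P hP δ μ c hc hmax hstd (Or.inr (Or.inr fun i hi l => ?_))
    have h5 : m ^ 5 ≤ μ (c 8) := by
      rw [hsum] at hcase2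
      exact MainF_two hm a10 a20 a30 a40 a50 a60 a70 a80 a61 a72 h012 h345 h678 h1 hcase2
    have h6 : μ (c 8) ≤ μ (c l) := hanti (Fin.le_last l)
    exact (Nat.pow_le_pow_left (hU i hi) 5).trans (h5.trans h6)
  push Not at hcase2
  -- the set of the eight other points
  set I : Finset (Fin s) := (Finset.univ.image c).erase (c 0) with hIdef
  have hi0 : c 0 ∉ I := Finset.notMem_erase _ _
  have hmem0 : c 0 ∈ Finset.univ.image c := Finset.mem_image_of_mem c (Finset.mem_univ 0)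
  have hins : insert (c 0) I = Finset.univ.image c := Finset.insert_erase hmem0
  have hI8 : I.card ≤ 8 := by
    rw [hIdef, Finset.card_erase_of_mem hmem0, Finset.card_image_of_injective _ hc,
      Finset.card_univ, Fintype.card_fin]
  have hImem : ∀ i ∈ I, μ i ≤ μ (c 1) := by
    intro i hi
    rw [hIdef, Finset.mem_erase, Finset.mem_image] at hi
    obtain ⟨hne, l, -, rfl⟩ := hi
    have hl : l ≠ 0 := fun h => hne (by rw [h])
    exact hanti (Fin.one_le_of_ne_zero hl)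
  have hout : ∀ i, i ≠ c 0 → i ∉ I → i ∉ Set.range c := by
    rintro i hi hiI ⟨l, rfl⟩
    exact hiI (Finset.mem_erase.2 ⟨hi, Finset.mem_image_of_mem c (Finset.mem_univ l)⟩)
  have hκ' : (((Finset.univ \ insert (c 0) I).image μ).erase 0).card ≤ κ := by
    rw [hins]
    exact hκ
  rcases lt_or_ge δ (μ (c 0) + 40 * κ * m) with hcase3 | hcase3
  · refine thin P hP δ μ m κ (c 0) I hm hκ1 hi0 hI8 (by linarith) (fun i hi => ?_)
      (fun i hi hiI => ⟨hU i (hout i hi hiI), ?_⟩) hκ' ?_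
    · have := hImem i hi
      linarith
    · have h5 := hmax i (hout i hi hiI) 1
      have h6 := hmax i (hout i hi hiI) 2
      linarith
    · have h5 : δ + 1 - μ (c 0) ≤ 40 * κ * m := by
        clear * - hcase3
        omega
      calc 404 * κ ^ 2 * m ^ 2 * (δ + 1 - μ (c 0)) ≤ 404 * κ ^ 2 * m ^ 2 * (40 * κ * m) :=
            Nat.mul_le_mul_left _ h5
        _ = 16160 * (κ ^ 3 * m ^ 3) := by ring
        _ ≤ 20000 * (κ ^ 3 * m ^ 3) := Nat.mul_le_mul_right _ (by norm_num)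
        _ = 20000 * κ ^ 3 * m ^ 3 := by ring
        _ ≤ δ + 1 := h2.trans (Nat.le_succ δ)
  have hm2 : m ^ 2 ≤ m ^ 5 := Nat.pow_le_pow_right hm (by norm_num)
  have hκm : 20000 * κ * m ^ 2 ≤ δ := by
    refine le_trans ?_ h2
    have e1 : κ ≤ κ ^ 3 := by
      calc κ = κ ^ 1 := (pow_one κ).symm
        _ ≤ κ ^ 3 := Nat.pow_le_pow_right hκ1 (by norm_num)
    have e2 : m ^ 2 ≤ m ^ 3 := Nat.pow_le_pow_right hm (by norm_num)
    exact Nat.mul_le_mul (Nat.mul_le_mul_left _ e1) e2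
  by_cases hcase4 : ∑ i ∈ I, (μ i + m) + 45 * m ^ 2 ≤ δ
  · refine ShghQG.main P hP δ μ m κ (c 0) I hm hκ1 hi0 (fun i hi hiI => hU i (hout i hi hiI))
      hκ' (fun i hi => ⟨(hImem i hi).trans a10, ?_⟩) hcase4 hcase3 ?_
    · have := hImem i hi
      linarith
    · calc 12800 * κ * m ^ 4 ≤ 20000 * 20000 * κ * m ^ 4 := by
            exact Nat.mul_le_mul_right _ (Nat.mul_le_mul_right _ (by norm_num))
        _ ≤ (20000 * κ * m ^ 2) * (20000 * m ^ 2) := by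
            apply le_of_eq
            ring
        _ ≤ δ * δ := Nat.mul_le_mul hκm ((Nat.mul_le_mul_left _ hm2).trans h1)
        _ = δ ^ 2 := (sq δ).symm
  push Not at hcase4
  have hsumI : μ (c 0) + m + ∑ i ∈ I, (μ i + m) = ∑ l, μ (c l) + 9 * m := by
    have h5 : μ (c 0) + m + ∑ i ∈ I, (μ i + m) = ∑ i ∈ Finset.univ.image c, (μ i + m) :=
      Finset.add_sum_erase _ (fun i => μ i + m) hmem0
    rw [h5, Finset.sum_image (fun x _ y _ h => hc h), Finset.sum_add_distrib, Finset.sum_const,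
      Finset.card_univ, Fintype.card_fin, smul_eq_mul]
  have hmm : m ≤ m ^ 2 := by
    calc m = m ^ 1 := (pow_one m).symm
      _ ≤ m ^ 2 := Nat.pow_le_pow_right hm (by norm_num)
  have hb0 : μ (c 0) ≤ δ := by linarith
  obtain ⟨b, hb'⟩ : ∃ b, δ = μ (c 0) + b := Nat.exists_eq_add_of_le hb0
  have hbb : δ - μ (c 0) = b := by
    rw [hb']
    exact Nat.add_sub_cancel_left _ _
  have hb : δ ≤ 5 * (δ - μ (c 0)) := by
    rw [hbb]
    rw [hsum] at hsumI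
    have e0 : μ (c 1) + μ (c 2) ≤ b := by linarith
    have e1 : ∑ i ∈ I, (μ i + m) ≤ 4 * b + 8 * m := by linarith
    have e2 : δ < 4 * b + 53 * m ^ 2 := by linarith
    by_contra hcon
    have e3 : b < 53 * m ^ 2 := by linarith
    linarith
  refine ShghN.main P hP δ μ c hc m κ hm hκ1 hanti h012 hU hκ ?_ hcase2 ?_
  · rw [hbb] at hb
    linarith
  · have h5 : 600 * m ^ 2 ≤ 3 * δ - ∑ l, μ (c l) := Nat.le_sub_of_add_le (by linarith)
    have h6 : 5 * (700000 * κ * m ^ 4) ≤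
        5 * ((3 * δ - ∑ l, μ (c l)) * (δ - μ (c 0))) := by
      calc 5 * (700000 * κ * m ^ 4) ≤ 12000000 * κ * m ^ 4 := by
            have : 5 * (700000 * κ * m ^ 4) = 3500000 * κ * m ^ 4 := by ring
            rw [this]
            exact Nat.mul_le_mul_right _ (Nat.mul_le_mul_right _ (by norm_num))
        _ = (600 * m ^ 2) * (20000 * κ * m ^ 2) := by ring
        _ ≤ (3 * δ - ∑ l, μ (c l)) * (5 * (δ - μ (c 0))) :=
            Nat.mul_le_mul h5 (hκm.trans hb)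
        _ = 5 * ((3 * δ - ∑ l, μ (c l)) * (δ - μ (c 0))) := by ring
    exact Nat.le_of_mul_le_mul_left h6 (by norm_num)

/-- **Main theorem.** Sort the nine points as in the proof of `ShghT.final_W` (`σ`), and apply `main10_aux` to
`c ∘ σ` (`Set.range (c ∘ σ) = Set.range c`, `univ.image (c ∘ σ) = univ.image c`). -/
theorem main10 {k : Type*} [Field k] {s : ℕ} (P : Fin s → Fin 2 → k)
    (hP : AlgebraicIndependent (⊥ : Subfield k) (fun ij : Fin s × Fin 2 => P ij.1 ij.2))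
    (δ : ℕ) (μ : Fin s → ℕ) (c : Fin 9 → Fin s) (hc : Function.Injective c) (m κ : ℕ)
    (hm : 1 ≤ m) (hκ1 : 1 ≤ κ)
    (hmax : ∀ i, i ∉ Set.range c → ∀ l, μ i ≤ μ (c l))
    (hstd : ∀ i j l, i ≠ j → i ≠ l → j ≠ l → μ (c i) + μ (c j) + μ (c l) ≤ δ)
    (hU : ∀ i, i ∉ Set.range c → μ i ≤ m)
    (hκ : (((Finset.univ \ Finset.univ.image c).image μ).erase 0).card ≤ κ)
    (h1 : 20000 * m ^ 5 ≤ δ) (h2 : 20000 * κ ^ 3 * m ^ 3 ≤ δ) :
    (Module.finrank k (LS δ μ P) : ℤ) =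
      max 0 (((δ + 2).choose 2 : ℤ) - ∑ i, ((μ i + 1).choose 2 : ℤ)) := by
  classical
  let σ : Equiv.Perm (Fin 9) := Fin.revPerm.trans (Tuple.sort fun l => μ (c l))
  have hr : Set.range (fun l => c (σ l)) = Set.range c := by
    ext x
    constructor
    · rintro ⟨l, rfl⟩
      exact ⟨σ l, rfl⟩
    · rintro ⟨l, rfl⟩
      exact ⟨σ.symm l, by simp⟩
  have hr' : Finset.univ.image (fun l => c (σ l)) = Finset.univ.image c := by
    apply Finset.coe_injective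
    rw [Finset.coe_image, Finset.coe_image, Finset.coe_univ, Set.image_univ, Set.image_univ, hr]
  refine main10_aux P hP δ μ (fun l => c (σ l)) (hc.comp σ.injective) m κ hm hκ1 ?_ ?_ ?_ ?_ ?_
    h1 h2
  · intro i j hij
    exact Tuple.monotone_sort (fun l => μ (c l)) (Fin.rev_le_rev.2 hij)
  · intro i hi l
    rw [hr] at hi
    exact hmax i hi (σ l)
  · intro i j l h1 h2 h3
    exact hstd _ _ _ (σ.injective.ne h1) (σ.injective.ne h2) (σ.injective.ne h3)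
  · intro i hi
    rw [hr] at hi
    exact hU i hi
  · rw [hr']
    exact hκ

end ShghF
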