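import Pool.Agent.ShghQ.Pat
import Pool.Agent.ShghX.FinalX

/-!
# The tenth multiplicity: small degree with respect to `-K_9`
-/

namespace ShghF

open ShghQ ShghT

theorem SmallG_sum9 (f : Fin 9 → ℤ) :
    ∑ l, f l = f 0 + f 1 + f 2 + f 3 + f 4 + f 5 + f 6 + f 7 + f 8 := by
  rw [Fin.sum_univ_succ, Fin.sum_univ_eight]
  have e1 : (Fin.succ 0 : Fin 9) = 1 := rfl
  have e2 : (Fin.succ 1 : Fin 9) = 2 := rfl
  have e3 : (Fin.succ 2 : Fin 9) = 3 := rfl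
  have e4 : (Fin.succ 3 : Fin 9) = 4 := rfl
  have e5 : (Fin.succ 4 : Fin 9) = 5 := rfl
  have e6 : (Fin.succ 5 : Fin 9) = 6 := rfl
  have e7 : (Fin.succ 6 : Fin 9) = 7 := rfl
  have e8 : (Fin.succ 7 : Fin 9) = 8 := rfl
  rw [e1, e2, e3, e4, e5, e6, e7, e8]
  ring

theorem SmallG_sq {x y t : ℤ} (ht : 0 ≤ t) (hty : t ≤ y) (hyx : y ≤ x) {a b c d e : ℤ}
    (ha : 0 ≤ a) (hb : 0 ≤ b) (hc : 0 ≤ c) (hd : 0 ≤ d) (he : 0 ≤ e)
    (ha' : a ≤ t) (hb' : b ≤ t) (hc' : c ≤ t) (hd' : d ≤ t) (he' : e ≤ t) {w : ℤ}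
    (hw : x + y + t ≤ w) :
    x ^ 2 + y ^ 2 + t ^ 2 + a ^ 2 + b ^ 2 + c ^ 2 + d ^ 2 + e ^ 2 ≤ w ^ 2 := by
  have h1 : a ^ 2 ≤ t ^ 2 := pow_le_pow_left₀ ha ha' 2
  have h2 : b ^ 2 ≤ t ^ 2 := pow_le_pow_left₀ hb hb' 2
  have h3 : c ^ 2 ≤ t ^ 2 := pow_le_pow_left₀ hc hc' 2
  have h4 : d ^ 2 ≤ t ^ 2 := pow_le_pow_left₀ hd hd' 2
  have h5 : e ^ 2 ≤ t ^ 2 := pow_le_pow_left₀ he he' 2
  have h6 : (x + y + t) ^ 2 ≤ w ^ 2 := pow_le_pow_left₀ (by linarith) hw 2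
  have h7 : t * t ≤ x * y := mul_le_mul (by linarith) hty ht (by linarith)
  have h8 : t * t ≤ x * t := mul_le_mul_of_nonneg_right (by linarith) ht
  have h9 : t * t ≤ y * t := mul_le_mul_of_nonneg_right hty ht
  nlinarith

/-- The self-intersection of a standard class with nine points: `d² - Σ m_l² ≥ 2 m_8 e`, `e = 3 d - Σ m_l`. Put
`a = M 8`, `M' l = M l - a`, `δ' = δ - 3 a` (integers, `δ' ≥ M' 0 + M' 1 + M' 2`). Then `δ² - Σ (M l)² = (δ'² - Σ (M' l)²) + 2 a (3 δ' - Σ M' l)`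
and `3 δ' - Σ M' l = 3 δ - Σ M l`. Finally `Σ (M' l)² ≤ (M' 0)² + (M' 1)² + 6 (M' 2)² ≤ (M' 0 + M' 1 + M' 2)² ≤ δ'²`, as
`0 = M' 8 ≤ M' l ≤ M' 2 ≤ M' 1 ≤ M' 0` for `3 ≤ l ≤ 7`. -/
theorem self_ge {δ : ℕ} {M : Fin 9 → ℕ} (hanti : Antitone M) (h : M 0 + M 1 + M 2 ≤ δ) :
    2 * (M 8 : ℤ) * (3 * δ - ∑ l, (M l : ℤ)) ≤ (δ : ℤ) ^ 2 - ∑ l, (M l : ℤ) ^ 2 := by
  rw [SmallG_sum9 fun l => (M l : ℤ), SmallG_sum9 fun l => (M l : ℤ) ^ 2]
  have a1 : (M 1 : ℤ) ≤ M 0 := by exact_mod_cast hanti (by decide)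
  have a2 : (M 2 : ℤ) ≤ M 1 := by exact_mod_cast hanti (by decide)
  have a3 : (M 3 : ℤ) ≤ M 2 := by exact_mod_cast hanti (by decide)
  have a4 : (M 4 : ℤ) ≤ M 2 := by exact_mod_cast hanti (by decide)
  have a5 : (M 5 : ℤ) ≤ M 2 := by exact_mod_cast hanti (by decide)
  have a6 : (M 6 : ℤ) ≤ M 2 := by exact_mod_cast hanti (by decide)
  have a7 : (M 7 : ℤ) ≤ M 2 := by exact_mod_cast hanti (by decide)
  have b2 : (M 8 : ℤ) ≤ M 2 := by exact_mod_cast hanti (by decide)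
  have b3 : (M 8 : ℤ) ≤ M 3 := by exact_mod_cast hanti (by decide)
  have b4 : (M 8 : ℤ) ≤ M 4 := by exact_mod_cast hanti (by decide)
  have b5 : (M 8 : ℤ) ≤ M 5 := by exact_mod_cast hanti (by decide)
  have b6 : (M 8 : ℤ) ≤ M 6 := by exact_mod_cast hanti (by decide)
  have b7 : (M 8 : ℤ) ≤ M 7 := by exact_mod_cast hanti (by decide)
  have hd : (M 0 : ℤ) + M 1 + M 2 ≤ δ := by exact_mod_cast h
  have key := SmallG_sq (x := (M 0 : ℤ) - M 8) (y := (M 1 : ℤ) - M 8) (t := (M 2 : ℤ) - M 8)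
    (by linarith) (by linarith) (by linarith)
    (a := (M 3 : ℤ) - M 8) (b := (M 4 : ℤ) - M 8) (c := (M 5 : ℤ) - M 8)
    (d := (M 6 : ℤ) - M 8) (e := (M 7 : ℤ) - M 8)
    (by linarith) (by linarith) (by linarith) (by linarith) (by linarith)
    (by linarith) (by linarith) (by linarith) (by linarith) (by linarith)
    (w := (δ : ℤ) - 3 * M 8) (by linarith)
  nlinarith [key]

/-- `9 m_8 ≥ 3 d - 10 e`: each of `δ - M 0 - M 1 - M 2`, `δ - M 3 - M 4 - M 5`, `δ - M 6 - M 7 - M 8` is `≥ 0` and their sum is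
`e = 3 δ - Σ M l`; so `M 8 ≥ δ - M 6 - M 7 - e`, `M 6 + M 7 ≤ 2 M 2 ≤ M 1 + M 2 ≤ δ - M 0`, so `M 8 ≥ M 0 - e`; and
`9 M 0 ≥ Σ M l = 3 δ - e`. -/
theorem last_ge {δ : ℕ} {M : Fin 9 → ℕ} (hanti : Antitone M) (h : M 0 + M 1 + M 2 ≤ δ) :
    3 * (δ : ℤ) - 10 * (3 * δ - ∑ l, (M l : ℤ)) ≤ 9 * M 8 := by
  rw [SmallG_sum9 fun l => (M l : ℤ)]
  have a1 : (M 1 : ℤ) ≤ M 0 := by exact_mod_cast hanti (by decide)
  have a2 : (M 2 : ℤ) ≤ M 1 := by exact_mod_cast hanti (by decide)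
  have a3 : (M 3 : ℤ) ≤ M 2 := by exact_mod_cast hanti (by decide)
  have a4 : (M 4 : ℤ) ≤ M 3 := by exact_mod_cast hanti (by decide)
  have a5 : (M 5 : ℤ) ≤ M 4 := by exact_mod_cast hanti (by decide)
  have a6 : (M 6 : ℤ) ≤ M 5 := by exact_mod_cast hanti (by decide)
  have a7 : (M 7 : ℤ) ≤ M 6 := by exact_mod_cast hanti (by decide)
  have a8 : (M 8 : ℤ) ≤ M 7 := by exact_mod_cast hanti (by decide)
  have hd : (M 0 : ℤ) + M 1 + M 2 ≤ δ := by exact_mod_cast h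
  linarith

/-- the points outside of the nine -/
theorem SmallG_outside {s : ℕ} (μ : Fin s → ℕ) (c : Fin 9 → Fin s) (hc : Function.Injective c) (m : ℕ)
    (hm : 1 ≤ m) (hU : ∀ i, i ∉ Set.range c → μ i ≤ m) :
    2 * ∑ i, ((μ i + 1).choose 2 : ℤ) ≤
      2 * ∑ l, ((μ (c l) + 1).choose 2 : ℤ) + 2 * (numX c μ * (m : ℤ) ^ 2) := by
  classical
  have h1 : ∑ i, ((μ i + 1).choose 2 : ℤ) =
      ∑ i ∈ Finset.univ.image c, ((μ i + 1).choose 2 : ℤ) +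
        ∑ i ∈ (Finset.univ.image c)ᶜ, ((μ i + 1).choose 2 : ℤ) :=
    (Finset.sum_add_sum_compl _ _).symm
  rw [h1, Finset.sum_image fun a _ b _ h => hc h]
  have h2 : ∑ i ∈ (Finset.univ.image c)ᶜ, ((μ i + 1).choose 2 : ℤ) ≤
      ∑ i ∈ (Finset.univ.image c)ᶜ, if 1 ≤ μ i then (m : ℤ) ^ 2 else 0 := by
    refine Finset.sum_le_sum fun i hi => ?_
    have hi' : i ∉ Set.range c := by
      intro hr
      obtain ⟨l, hl⟩ := hr
      rw [Finset.mem_compl] at hi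
      exact hi (Finset.mem_image.2 ⟨l, Finset.mem_univ _, hl⟩)
    have h3 := hU i hi'
    by_cases h4 : 1 ≤ μ i
    · rw [if_pos h4]
      have h5 : (μ i + 1).choose 2 ≤ m ^ 2 := by
        rw [Nat.choose_two_right, Nat.add_sub_cancel]
        apply Nat.div_le_of_le_mul
        nlinarith
      exact_mod_cast h5
    · rw [if_neg h4]
      have h5 : μ i = 0 := by omega
      rw [h5]
      simp
  have h3 : (∑ i ∈ (Finset.univ.image c)ᶜ, if 1 ≤ μ i then (m : ℤ) ^ 2 else 0) =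
      numX c μ * (m : ℤ) ^ 2 := by
    rw [← Finset.sum_filter, Finset.sum_const, nsmul_eq_mul]
    congr 2
    unfold numX
    congr 1
    ext i
    simp only [Finset.mem_filter, Finset.mem_compl, Finset.mem_image, Finset.mem_univ, true_and,
      not_exists]
    refine and_congr_left fun _ => ⟨fun h l hl => h l hl.symm, fun h l hl => h l hl.symm⟩
  linarith

/-- twice the expected dimension of the nine points -/
theorem SmallG_chi (δ : ℕ) {s : ℕ} (μ : Fin s → ℕ) (c : Fin 9 → Fin s) :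
    2 * (((δ + 2).choose 2 : ℤ) - ∑ l, ((μ (c l) + 1).choose 2 : ℤ)) =
      ((δ : ℤ) ^ 2 - ∑ l, (μ (c l) : ℤ) ^ 2) + (3 * δ - ∑ l, (μ (c l) : ℤ)) + 2 := by
  have ht : ∀ a : ℕ, 2 * ((a + 1).choose 2 : ℤ) = (a : ℤ) ^ 2 + a := by
    intro a
    have h1 : 2 * (a + 1).choose 2 = a ^ 2 + a := by
      have h2 := Nat.triangle_succ a
      rw [Nat.choose_two_right, Nat.add_sub_cancel]
      have h3 : 2 ∣ (a + 1) * a := by
        rw [mul_comm]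
        exact (Nat.even_mul_succ_self a).two_dvd
      rw [Nat.mul_div_cancel' h3]
      ring
    exact_mod_cast h1
  have h1 := ht (δ + 1)
  have h2 : 2 * ∑ l, ((μ (c l) + 1).choose 2 : ℤ) =
      ∑ l, (μ (c l) : ℤ) ^ 2 + ∑ l, (μ (c l) : ℤ) := by
    rw [Finset.mul_sum, ← Finset.sum_add_distrib]
    exact Finset.sum_congr rfl fun l _ => ht _
  have h3 : δ + 1 + 1 = δ + 2 := rfl
  rw [h3] at h1
  push_cast at h1
  linarith

/-- The case `e ≤ 44 κ m`. `ShghT.std_X`; put `E = 3 δ - Σ μ (c l)` (integer). If `E ≤ 2`: first alternative of `HypZ`. Otherwise `E ≥ 3`.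
Suppose that `|χ| < 2 E²` and `numX c μ < 2 E³`. All `i` outside of the nine have `tri (μ i) ≤ tri m ≤ m²`, so
`Σ_{i ∉ range c} tri (μ i) ≤ numX c μ * m² ≤ 2 E³ m²` and `χ = tri (δ + 1) - Σ_l tri (μ (c l)) - Σ_{i ∉ range c} tri (μ i)` gives
`2 (tri (δ + 1) - Σ_l tri (μ (c l))) ≤ 4 E² + 4 E³ m²`. The left side is `δ² - Σ (μ (c l))² + E + 2 ≥ 2 μ (c 8) E` (`self_ge`). So
`μ (c 8) ≤ 2 E + 2 E² m²`, and by `last_ge` `3 δ ≤ 9 μ (c 8) + 10 E ≤ 28 E + 18 E² m² ≤ 46 E² m²`. More exactly with `E ≤ 44 κ m`: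
`28 E + 18 E² m² ≤ 1232 κ m + 34848 κ² m⁴ ≤ 36080 κ² m⁴ < 3 · 16200 κ² m⁴`, a contradiction. -/
theorem small_e {k : Type*} [Field k] {s : ℕ} (P : Fin s → Fin 2 → k)
    (hP : AlgebraicIndependent (⊥ : Subfield k) (fun ij : Fin s × Fin 2 => P ij.1 ij.2))
    (δ : ℕ) (μ : Fin s → ℕ) (c : Fin 9 → Fin s) (hc : Function.Injective c) (m κ : ℕ)
    (hm : 1 ≤ m) (hκ1 : 1 ≤ κ) (hanti : Antitone fun l => μ (c l))
    (hstd : ∀ i j l, i ≠ j → i ≠ l → j ≠ l → μ (c i) + μ (c j) + μ (c l) ≤ δ)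
    (hU : ∀ i, i ∉ Set.range c → μ i ≤ m)
    (he : 3 * δ ≤ ∑ l, μ (c l) + 44 * κ * m) (h1 : 16200 * κ ^ 2 * m ^ 4 ≤ δ) :
    (Module.finrank k (LS δ μ P) : ℤ) =
      max 0 (((δ + 2).choose 2 : ℤ) - ∑ i, ((μ i + 1).choose 2 : ℤ)) := by
  refine std_X P hP δ μ c hc hstd ?_
  have h012 := hstd 0 1 2 (by decide) (by decide) (by decide)
  have hself := self_ge hanti h012
  have hlast := last_ge hanti h012
  set E : ℤ := 3 * δ - ∑ l, (μ (c l) : ℤ) with hE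
  have hE44 : E ≤ 44 * κ * m := by
    have h2 : ((3 * δ : ℕ) : ℤ) ≤ ((∑ l, μ (c l) + 44 * κ * m : ℕ) : ℤ) := by exact_mod_cast he
    push_cast at h2
    rw [hE]
    linarith
  by_contra hno
  unfold HypZ at hno
  push Not at hno
  obtain ⟨hE2, hχ, hn, -⟩ := hno
  have hχ' := (abs_lt.1 hχ).2
  have hout := SmallG_outside μ c hc m hm hU
  have h2c := SmallG_chi δ μ c
  rw [← hE] at h2c
  have hEpos : 0 < E := by linarith
  have hmZ : (1 : ℤ) ≤ m := by exact_mod_cast hm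
  have hκZ : (1 : ℤ) ≤ κ := by exact_mod_cast hκ1
  have hδ : 16200 * (κ : ℤ) ^ 2 * m ^ 4 ≤ δ := by exact_mod_cast h1
  have hnm : (numX c μ : ℤ) * m ^ 2 ≤ 2 * E ^ 3 * m ^ 2 :=
    mul_le_mul_of_nonneg_right hn.le (by positivity)
  -- the last of the nine multiplicities
  have h8 : (μ (c 8) : ℤ) ≤ 2 * E + 2 * E ^ 2 * m ^ 2 := by
    have h3 : 2 * (μ (c 8) : ℤ) * E ≤ 2 * (2 * E + 2 * E ^ 2 * m ^ 2) * E := by
      nlinarith
    have h4 := le_of_mul_le_mul_right h3 hEpos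
    linarith
  have h3δ : 3 * (δ : ℤ) ≤ 28 * E + 18 * E ^ 2 * m ^ 2 := by linarith
  have hE2' : E ^ 2 ≤ (44 * κ * m) ^ 2 := pow_le_pow_left₀ hEpos.le hE44 2
  have hE3 : E ^ 2 * (m : ℤ) ^ 2 ≤ (44 * κ * m) ^ 2 * m ^ 2 :=
    mul_le_mul_of_nonneg_right hE2' (by positivity)
  have hkm : (κ : ℤ) * m ≤ κ ^ 2 * m ^ 4 := by
    have h5 : (κ : ℤ) ≤ κ ^ 2 := by nlinarith
    have h6 : (m : ℤ) ≤ m ^ 4 := le_self_pow₀ hmZ (by norm_num)
    exact mul_le_mul h5 h6 (by linarith) (by positivity)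
  have hpos : 0 < (κ : ℤ) ^ 2 * m ^ 4 := by positivity
  nlinarith

end ShghF
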