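import Pool.Agent.ShghF.ConfigF
import Pool.Agent.ShghF.SmallG
import Pool.Agent.ShghN.MainN
import Pool.Agent.ShghQG.Main
import Pool.Agent.ShghW.FinalW

/-!
# The tenth multiplicity: the bound `16200 κ² m⁴ ≤ d`
-/

namespace ShghF

open ShghQ ShghT

/-- The sum of the nine multiplicities. -/
theorem MainG_sum {s : ℕ} (μ : Fin s → ℕ) (c : Fin 9 → Fin s) :
    ∑ l, μ (c l) = μ (c 0) + μ (c 1) + μ (c 2) + μ (c 3) + μ (c 4) + μ (c 5) +
      μ (c 6) + μ (c 7) + μ (c 8) := by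
  rw [Fin.sum_univ_succ, Fin.sum_univ_eight]
  have e1 : (Fin.succ 0 : Fin 9) = 1 := rfl
  have e2 : (Fin.succ 1 : Fin 9) = 2 := rfl
  have e3 : (Fin.succ 2 : Fin 9) = 3 := rfl
  have e4 : (Fin.succ 3 : Fin 9) = 4 := rfl
  have e5 : (Fin.succ 4 : Fin 9) = 5 := rfl
  have e6 : (Fin.succ 5 : Fin 9) = 6 := rfl
  have e7 : (Fin.succ 6 : Fin 9) = 7 := rfl
  have e8 : (Fin.succ 7 : Fin 9) = 8 := rfl
  rw [e1, e2, e3, e4, e5, e6, e7, e8]
  ring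

/-- The sum over the eight points different from the first one. -/
theorem MainG_sumI {s : ℕ} (μ : Fin s → ℕ) (c : Fin 9 → Fin s) (hc : Function.Injective c)
    (m : ℕ) :
    ∑ i ∈ (Finset.univ.erase (0 : Fin 9)).image c, (μ i + m) =
      μ (c 1) + μ (c 2) + μ (c 3) + μ (c 4) + μ (c 5) + μ (c 6) + μ (c 7) + μ (c 8) + 8 * m := by
  rw [Finset.sum_image (fun a _ b _ h => hc h)]
  have h6 : ∑ x ∈ Finset.univ.erase (0 : Fin 9), (μ (c x) + m) + (μ (c 0) + m) =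
      ∑ x : Fin 9, (μ (c x) + m) := Finset.sum_erase_add _ _ (Finset.mem_univ _)
  rw [Finset.sum_add_distrib (s := (Finset.univ : Finset (Fin 9))), MainG_sum, Finset.sum_const,
    Finset.card_univ, Fintype.card_fin, smul_eq_mul] at h6
  omega

theorem MainG_insert {s : ℕ} (c : Fin 9 → Fin s) :
    insert (c 0) ((Finset.univ.erase (0 : Fin 9)).image c) = Finset.univ.image c := by
  rw [← Finset.image_insert, Finset.insert_erase (Finset.mem_univ _)]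

theorem MainG_not_mem {s : ℕ} (c : Fin 9 → Fin s) {i : Fin s} (h0 : i ≠ c 0)
    (h1 : i ∉ (Finset.univ.erase (0 : Fin 9)).image c) : i ∉ Set.range c := by
  rintro ⟨l, hl⟩
  by_cases hl0 : l = 0
  · exact h0 (by rw [← hl, hl0])
  · exact h1 (Finset.mem_image.mpr ⟨l, Finset.mem_erase.mpr ⟨hl0, Finset.mem_univ _⟩, hl⟩)

theorem MainG_zero_not_mem {s : ℕ} (c : Fin 9 → Fin s) (hc : Function.Injective c) :
    c 0 ∉ (Finset.univ.erase (0 : Fin 9)).image c := by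
  intro h
  obtain ⟨l, hl, hl'⟩ := Finset.mem_image.mp h
  exact (Finset.mem_erase.mp hl).1 (hc hl')

/-- The case of sorted multiplicities and `κ ≤ m`. Put `b = δ - μ (c 0)` and write `c l` for `μ (c l)`; `c 1 + c 2 ≤ b`,
`2 c 2 ≤ b`, so `Σ_{l ≥ 1} c l ≤ c 1 + 7 c 2 ≤ 4 b` (`c l ≤ c 2` for `l ≥ 2`). (Compare `main10_aux` in `MainF.lean`.)
(1) If all `μ i ≤ 2` for `i ∉ range c`: `ShghT.final_W` (second alternative). Otherwise `3 ≤ μ i ≤ c 2` for some `i`, so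
`b ≥ 6`, `m ≥ 3`.
(2) If `3 δ ≤ Σ c l + 44 κ m`: `small_e`.
(3) Otherwise, if `3 δ < Σ c l + 600 m²`: `ShghN.main_nine` with `e = 3 δ - Σ c l ≥ 44 κ m + 1`; `23 m² ≤ c 8`, as
`9 c 8 ≥ 3 δ - 10 e ≥ 3 δ - 6000 m² ≥ 207 m²` (`last_ge`, `δ ≥ 16200 m²`).
(4) Otherwise, if `b < 40 κ m`: `thin` with `i0 = c 0`, `I = univ.image c \ {c 0}` (`card = 8`): `μ i + c 0 ≤ δ` for `i ∈ I`
(`c l ≤ c 1`), `2 μ i + c 0 ≤ δ` for the others (`μ i ≤ c 1`, `μ i ≤ c 2`), `δ + 1 - c 0 = b + 1 ≤ 40 κ m`,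
`404 κ² m² (b + 1) ≤ 16160 κ³ m³ ≤ 16160 κ² m⁴ ≤ δ`; `insert (c 0) I = univ.image c`.
(5) Otherwise, if `Σ_{l ≥ 1} (c l + m) + 45 m² ≤ δ`: `ShghQG.main` with the same `i0`, `B = I`
(`c l ≤ c 0`; `12800 κ m⁴ ≤ δ ≤ δ²`).
(6) Otherwise `δ < 4 b + 8 m + 45 m² ≤ 4 b + 53 m²`, so `δ ≤ 5 b` (if `5 b < δ` then `b < 53 m²`, `δ < 265 m²`, a contradiction).
`ShghN.main`: `5 b ≥ δ ≥ 16200 m⁴ ≥ 15000 m²`; `5 (3 δ - Σ c l) b ≥ 600 m² δ ≥ 600 · 16200 κ² m⁶ ≥ 5 · 700000 κ m⁴` as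
`m ≥ 3` (`600 · 16200 = 9720000`). -/
theorem main_ten_aux {k : Type*} [Field k] {s : ℕ} (P : Fin s → Fin 2 → k)
    (hP : AlgebraicIndependent (⊥ : Subfield k) (fun ij : Fin s × Fin 2 => P ij.1 ij.2))
    (δ : ℕ) (μ : Fin s → ℕ) (c : Fin 9 → Fin s) (hc : Function.Injective c) (m κ : ℕ)
    (hm : 1 ≤ m) (hκ1 : 1 ≤ κ) (hκm : κ ≤ m) (hanti : Antitone fun l => μ (c l))
    (hmax : ∀ i, i ∉ Set.range c → ∀ l, μ i ≤ μ (c l))
    (hstd : ∀ i j l, i ≠ j → i ≠ l → j ≠ l → μ (c i) + μ (c j) + μ (c l) ≤ δ)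
    (hU : ∀ i, i ∉ Set.range c → μ i ≤ m)
    (hκ : (((Finset.univ \ Finset.univ.image c).image μ).erase 0).card ≤ κ)
    (h1 : 16200 * κ ^ 2 * m ^ 4 ≤ δ) :
    (Module.finrank k (LS δ μ P) : ℤ) =
      max 0 (((δ + 2).choose 2 : ℤ) - ∑ i, ((μ i + 1).choose 2 : ℤ)) := by
  have h012 := hstd 0 1 2 (by decide) (by decide) (by decide)
  have f1 : μ (c 1) ≤ μ (c 0) := hanti (show (0 : Fin 9) ≤ 1 by decide)
  have f2 : μ (c 2) ≤ μ (c 1) := hanti (show (1 : Fin 9) ≤ 2 by decide)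
  have f3 : μ (c 3) ≤ μ (c 2) := hanti (show (2 : Fin 9) ≤ 3 by decide)
  have f4 : μ (c 4) ≤ μ (c 2) := hanti (show (2 : Fin 9) ≤ 4 by decide)
  have f5 : μ (c 5) ≤ μ (c 2) := hanti (show (2 : Fin 9) ≤ 5 by decide)
  have f6 : μ (c 6) ≤ μ (c 2) := hanti (show (2 : Fin 9) ≤ 6 by decide)
  have f7 : μ (c 7) ≤ μ (c 2) := hanti (show (2 : Fin 9) ≤ 7 by decide)
  have f8 : μ (c 8) ≤ μ (c 2) := hanti (show (2 : Fin 9) ≤ 8 by decide)
  have hsum := MainG_sum μ c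
  -- (1)
  by_cases hsmall : ∀ i, i ∉ Set.range c → μ i ≤ 2
  · exact final_W P hP δ μ c hc hmax hstd (Or.inr (Or.inl hsmall))
  push Not at hsmall
  obtain ⟨i₁, hi₁, hi₁3⟩ := hsmall
  have g2 := hmax i₁ hi₁ 2
  -- arithmetic
  have hmm : m ≤ m ^ 2 := by nlinarith
  have hm24 : m ^ 2 ≤ m ^ 4 := Nat.pow_le_pow_right hm (by norm_num)
  have hm46 : m ^ 4 ≤ m ^ 6 := Nat.pow_le_pow_right hm (by norm_num)
  have hκκ : κ ≤ κ ^ 2 := by nlinarith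
  have hκ2 : 1 ≤ κ ^ 2 := hκ1.trans hκκ
  have hm1 : m ^ 4 ≤ κ ^ 2 * m ^ 4 := Nat.le_mul_of_pos_left _ hκ2
  have h1' : 16200 * (κ ^ 2 * m ^ 4) ≤ δ := by rw [← mul_assoc]; exact h1
  have hδ2 : 16200 * m ^ 2 ≤ δ := by omega
  -- (2)
  rcases le_or_gt (3 * δ) (∑ l, μ (c l) + 44 * κ * m) with hs | hs
  · exact small_e P hP δ μ c hc m κ hm hκ1 hanti hstd hU hs h1
  -- (3)
  rcases lt_or_ge (3 * δ) (∑ l, μ (c l) + 600 * m ^ 2) with ht | ht
  · have hl := last_ge (δ := δ) (M := fun l => μ (c l)) hanti h012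
    have hsum' : (∑ l, ((μ (c l) : ℕ) : ℤ)) = ((∑ l, μ (c l) : ℕ) : ℤ) := by
      rw [Nat.cast_sum]
    rw [hsum'] at hl
    refine ShghN.main_nine P hP δ μ c hc m κ (3 * δ - ∑ l, μ (c l)) hm hκ1
      ⟨hanti, h012, by omega⟩ hU hκ ?_ ?_
    · omega
    · omega
  -- the eight points
  have hins := MainG_insert c
  have hκ' : (((Finset.univ \ insert (c 0) ((Finset.univ.erase (0 : Fin 9)).image c)).image
      μ).erase 0).card ≤ κ := by
    rw [hins]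
    exact hκ
  have hle1 : ∀ l, l ≠ 0 → μ (c l) ≤ μ (c 1) := by
    intro l hl
    exact hanti (show (1 : Fin 9) ≤ l from Fin.one_le_of_ne_zero hl)
  -- (4)
  rcases lt_or_ge (δ - μ (c 0)) (40 * κ * m) with hb | hb
  · refine thin P hP δ μ m κ (c 0) ((Finset.univ.erase (0 : Fin 9)).image c) hm hκ1
      (MainG_zero_not_mem c hc) ?_ (by omega) ?_ ?_ hκ' ?_
    · refine Finset.card_image_le.trans ?_
      rw [Finset.card_erase_of_mem (Finset.mem_univ _), Finset.card_univ, Fintype.card_fin]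
    · intro i hi
      obtain ⟨l, hl, rfl⟩ := Finset.mem_image.mp hi
      have h5 := hle1 l (Finset.mem_erase.mp hl).1
      omega
    · intro i hi0 hiI
      have hi := MainG_not_mem c hi0 hiI
      have t1 := hmax i hi 1
      have t2 := hmax i hi 2
      exact ⟨hU i hi, by omega⟩
    · have hb1 : δ + 1 - μ (c 0) ≤ 40 * κ * m := by omega
      calc 404 * κ ^ 2 * m ^ 2 * (δ + 1 - μ (c 0))
          ≤ 404 * κ ^ 2 * m ^ 2 * (40 * κ * m) := Nat.mul_le_mul_left _ hb1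
        _ = 16160 * (κ ^ 2 * m ^ 3) * κ := by ring
        _ ≤ 16160 * (κ ^ 2 * m ^ 3) * m := Nat.mul_le_mul_left _ hκm
        _ = 16160 * (κ ^ 2 * m ^ 4) := by ring
        _ ≤ δ + 1 := by omega
  -- (5)
  have hC0 : μ (c 0) + 40 * κ * m ≤ δ := by omega
  rcases le_or_gt (∑ i ∈ (Finset.univ.erase (0 : Fin 9)).image c, (μ i + m) + 45 * m ^ 2) δ
    with hq | hq
  · refine ShghQG.main P hP δ μ m κ (c 0) ((Finset.univ.erase (0 : Fin 9)).image c) hm hκ1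
      (MainG_zero_not_mem c hc) (fun i hi0 hiI => hU i (MainG_not_mem c hi0 hiI)) hκ' ?_ hq hC0 ?_
    · intro i hi
      obtain ⟨l, hl, rfl⟩ := Finset.mem_image.mp hi
      have h5 := hle1 l (Finset.mem_erase.mp hl).1
      exact ⟨by omega, by omega⟩
    · have hδ1 : 1 ≤ δ := by omega
      calc 12800 * κ * m ^ 4 = 12800 * (κ * m ^ 4) := by ring
        _ ≤ 16200 * (κ ^ 2 * m ^ 4) := Nat.mul_le_mul (by norm_num) (Nat.mul_le_mul_right _ hκκ)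
        _ ≤ δ := h1'
        _ ≤ δ ^ 2 := by nlinarith
  -- (6)
  rw [MainG_sumI μ c hc m] at hq
  obtain ⟨b, hbdef⟩ : ∃ b, δ - μ (c 0) = b := ⟨_, rfl⟩
  have h5b : δ ≤ 5 * b := by omega
  have hE : 600 * m ^ 2 ≤ 3 * δ - ∑ l, μ (c l) := by omega
  refine ShghN.main P hP δ μ c hc m κ hm hκ1 hanti h012 hU hκ (by omega) ht ?_
  rw [hbdef]
  have h9 : 5 * (700000 * κ * m ^ 4) ≤ 5 * (600 * m ^ 2 * b) := by
    calc 5 * (700000 * κ * m ^ 4) = 3500000 * (κ * m ^ 4) := by ring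
      _ ≤ 9720000 * (κ ^ 2 * m ^ 6) := Nat.mul_le_mul (by norm_num) (Nat.mul_le_mul hκκ hm46)
      _ = 600 * m ^ 2 * (16200 * (κ ^ 2 * m ^ 4)) := by ring
      _ ≤ 600 * m ^ 2 * δ := Nat.mul_le_mul_left _ h1'
      _ ≤ 600 * m ^ 2 * (5 * b) := Nat.mul_le_mul_left _ h5b
      _ = 5 * (600 * m ^ 2 * b) := by ring
  have h10 : 600 * m ^ 2 * b ≤ (3 * δ - ∑ l, μ (c l)) * b := Nat.mul_le_mul_right _ hE
  omega

/-- **Main theorem.** Sort the nine points as in the proof of `ShghT.final_W` (`σ`), and apply `main_ten_aux` to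
`c ∘ σ` (`Set.range (c ∘ σ) = Set.range c`, `univ.image (c ∘ σ) = univ.image c`) and `min κ m` (`ShghQG.card_values_le`). -/
theorem main_ten {k : Type*} [Field k] {s : ℕ} (P : Fin s → Fin 2 → k)
    (hP : AlgebraicIndependent (⊥ : Subfield k) (fun ij : Fin s × Fin 2 => P ij.1 ij.2))
    (δ : ℕ) (μ : Fin s → ℕ) (c : Fin 9 → Fin s) (hc : Function.Injective c) (m κ : ℕ)
    (hm : 1 ≤ m) (hκ1 : 1 ≤ κ)
    (hmax : ∀ i, i ∉ Set.range c → ∀ l, μ i ≤ μ (c l))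
    (hstd : ∀ i j l, i ≠ j → i ≠ l → j ≠ l → μ (c i) + μ (c j) + μ (c l) ≤ δ)
    (hU : ∀ i, i ∉ Set.range c → μ i ≤ m)
    (hκ : (((Finset.univ \ Finset.univ.image c).image μ).erase 0).card ≤ κ)
    (h1 : 16200 * κ ^ 2 * m ^ 4 ≤ δ) :
    (Module.finrank k (LS δ μ P) : ℤ) =
      max 0 (((δ + 2).choose 2 : ℤ) - ∑ i, ((μ i + 1).choose 2 : ℤ)) := by
  let σ : Equiv.Perm (Fin 9) := Fin.revPerm.trans (Tuple.sort fun l => μ (c l))
  have hr : Set.range (fun l => c (σ l)) = Set.range c := by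
    ext x
    constructor
    · rintro ⟨l, rfl⟩
      exact ⟨σ l, rfl⟩
    · rintro ⟨l, rfl⟩
      exact ⟨σ.symm l, by simp⟩
  have hr' : (Finset.univ.image fun l => c (σ l)) = Finset.univ.image c := by
    apply Finset.coe_injective
    rw [Finset.coe_image, Finset.coe_image, Finset.coe_univ, Set.image_univ, Set.image_univ, hr]
  refine main_ten_aux P hP δ μ (fun l => c (σ l)) (hc.comp σ.injective) m (min κ m) hm
    (le_min hκ1 hm) (min_le_right _ _) ?_ ?_ ?_ ?_ ?_ ?_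
  · intro i j hij
    exact Tuple.monotone_sort (fun l => μ (c l)) (Fin.rev_le_rev.2 hij)
  · intro i hi l
    rw [hr] at hi
    exact hmax i hi (σ l)
  · intro i j l h1 h2 h3
    exact hstd _ _ _ (σ.injective.ne h1) (σ.injective.ne h2) (σ.injective.ne h3)
  · intro i hi
    rw [hr] at hi
    exact hU i hi
  · rw [hr']
    refine le_min hκ (ShghQG.card_values_le μ m _ fun i hi => hU i fun ⟨l, hl⟩ => ?_)
    exact (Finset.mem_sdiff.mp hi).2 (Finset.mem_image.mpr ⟨l, Finset.mem_univ _, hl⟩)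
  · refine le_trans ?_ h1
    have h9 : min κ m ≤ κ := min_le_left _ _
    exact Nat.mul_le_mul_right _ (Nat.mul_le_mul_left _ (Nat.pow_le_pow_left h9 2))

end ShghF
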