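import Pool.Agent.ShghF.FillerF

/-!
# Almost even distribution of the points of one multiplicity
-/

namespace ShghF

open ShghQ

theorem NonF_sum {M k : ℕ} (hM : 0 < M) (ρ : ℕ → ℕ) (n : ℕ) (hk : n ≤ k) :
    0 ≤ ∑ r ∈ Finset.Icc 1 n, ((ρ r % M : ℕ) : ℤ) ∧
      ∑ r ∈ Finset.Icc 1 n, ((ρ r % M : ℕ) : ℤ) ≤ k * M := by
  constructor
  · exact Finset.sum_nonneg fun r _ => Int.natCast_nonneg _
  · calc ∑ r ∈ Finset.Icc 1 n, ((ρ r % M : ℕ) : ℤ) ≤ ∑ r ∈ Finset.Icc 1 n, (M : ℤ) := by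
          refine Finset.sum_le_sum fun r _ => ?_
          exact_mod_cast (Nat.mod_lt _ hM).le
      _ = (n : ℤ) * M := by
          rw [Finset.sum_const, Nat.card_Icc]
          simp
      _ ≤ (k : ℤ) * M := by
          have h1 : (n : ℤ) ≤ k := by exact_mod_cast hk
          exact mul_le_mul_of_nonneg_right h1 (Int.natCast_nonneg _)

theorem NonF_ld {ν L N M : ℕ} (F' : ℕ → ℕ → ℕ) (l : ℕ) :
    (M : ℤ) * ld ν L N (fun r p => F' r p / M) l = ld ν L (M * N) F' l -
      ∑ r ∈ Finset.Icc 1 (min ν l), ((F' r l % M : ℕ) : ℤ) +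
      ∑ r ∈ Finset.Icc 1 (min ν (L - 1 - l)), ((F' r (l + r) % M : ℕ) : ℤ) := by
  have h : ∀ a : ℕ, (M : ℤ) * ((a / M : ℕ) : ℤ) = (a : ℤ) - ((a % M : ℕ) : ℤ) := by
    intro a
    have h1 := Nat.div_add_mod a M
    have h2 : ((M * (a / M) + a % M : ℕ) : ℤ) = a := by exact_mod_cast h1
    rw [Nat.cast_add, Nat.cast_mul] at h2
    linarith
  unfold ld
  rw [mul_sub, mul_add, Finset.mul_sum, Finset.mul_sum, Finset.sum_congr rfl fun r _ => h _,
    Finset.sum_congr rfl fun r _ => h (F' r (l + r)), Finset.sum_sub_distrib,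
    Finset.sum_sub_distrib]
  push_cast
  ring

/-- If `N = 0` take `F = 0` (all loads are `0`). Let `N ≥ 1`, `c = 6 L ν ^ 2`, `M = 2 L c`. The constant demands
`D' = 2 c N tri ν` satisfy `filler` with `M N` points and `K = 0`: the sum is `L · 2 c N tri ν = M N tri ν`, and
`6 L ν · 2 ν ≤ 2 c ≤ D'`. This gives `F'`. Put `F r p = F' r p / M`. `Mon ν L N F`: `Nat.div_le_div_right`; `F' 1 1 ≤ M N` gives
`F 1 1 ≤ N`. Write `F' r p = M F r p + ρ r p`, `0 ≤ ρ r p < M`. Then `M · ld ν L N F l = D' - Σ ρ + Σ ρ`, a constant minus a sum of at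
most `ν` numbers in `[0, M)` plus a sum of at most `ν` numbers in `[0, M)`. So the difference for `l` and `l + 1` is at most
`2 ν M` in absolute value. -/
theorem nonfiller {ν L : ℕ} (hν : 1 ≤ ν) (hL : 2 * ν + 1 ≤ L) (N : ℕ) :
    ∃ F : ℕ → ℕ → ℕ, Mon ν L N F ∧
      ∀ l, l + 1 < L → |ld ν L N F l - ld ν L N F (l + 1)| ≤ 2 * ν := by
  rcases Nat.eq_zero_or_pos N with h0 | h0
  · subst h0
    refine ⟨fun _ _ => 0, ⟨fun _ _ _ _ _ _ => le_rfl, fun _ _ _ => le_rfl, le_rfl⟩, ?_⟩
    intro l _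
    simp [ld]
  · obtain ⟨c, hc⟩ : ∃ c, c = 6 * L * ν ^ 2 := ⟨_, rfl⟩
    obtain ⟨M, hM⟩ : ∃ M, M = 2 * L * c := ⟨_, rfl⟩
    have hc0 : 0 < c := by
      rw [hc]
      have : 0 < L := by omega
      positivity
    have hM0 : 0 < M := by
      rw [hM]
      have : 0 < L := by omega
      positivity
    have htri : 1 ≤ tri ν := by
      have h1 := tri_mono hν
      have h2 : tri 1 = 1 := by decide
      omega
    obtain ⟨F', hF', hld⟩ := filler (N := M * N) (K := 0) hν hL
      (fun _ => ((2 * c * N * tri ν : ℕ) : ℤ)) (by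
        rw [Finset.sum_const, Finset.card_range, hM]
        push_cast
        ring) (by
        intro l _
        simp) (by
        have h1 : 6 * L * ν * (0 + 2 * ν) ≤ 2 * c * N * tri ν := by
          have h2 : 6 * L * ν * (0 + 2 * ν) = 2 * c * 1 * 1 := by
            rw [hc]
            ring
          rw [h2]
          exact Nat.mul_le_mul (Nat.mul_le_mul_left _ h0) htri
        exact_mod_cast h1)
    refine ⟨fun r p => F' r p / M, ⟨?_, ?_, ?_⟩, ?_⟩
    · intro r p h1 h2 h3 h4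
      exact Nat.div_le_div_right (hF'.row r p h1 h2 h3 h4)
    · intro p h1 h2
      exact Nat.div_le_div_right (hF'.step p h1 h2)
    · exact Nat.div_le_of_le_mul hF'.top
    · intro l hl
      have h1 := NonF_ld (ν := ν) (L := L) (N := N) (M := M) F' l
      have h2 := NonF_ld (ν := ν) (L := L) (N := N) (M := M) F' (l + 1)
      rw [hld l (by omega)] at h1
      rw [hld (l + 1) hl] at h2
      obtain ⟨a1, a2⟩ := NonF_sum hM0 (fun r => F' r l) (min ν l) (min_le_left ν l)
      obtain ⟨b1, b2⟩ := NonF_sum hM0 (fun r => F' r (l + r)) (min ν (L - 1 - l))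
        (min_le_left ν _)
      obtain ⟨c1, c2⟩ := NonF_sum hM0 (fun r => F' r (l + 1)) (min ν (l + 1))
        (min_le_left ν _)
      obtain ⟨d1, d2⟩ := NonF_sum hM0 (fun r => F' r (l + 1 + r)) (min ν (L - 1 - (l + 1)))
        (min_le_left ν _)
      have hMz : (0 : ℤ) < M := by exact_mod_cast hM0
      rw [abs_le]
      constructor
      · have h3 : (M : ℤ) * (-(2 * ν)) ≤ M * (ld ν L N (fun r p => F' r p / M) l -
            ld ν L N (fun r p => F' r p / M) (l + 1)) := by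
          rw [mul_sub, h1, h2]
          linarith
        exact le_of_mul_le_mul_left h3 hMz
      · have h3 : (M : ℤ) * (ld ν L N (fun r p => F' r p / M) l -
            ld ν L N (fun r p => F' r p / M) (l + 1)) ≤ M * (2 * ν) := by
          rw [mul_sub, h1, h2]
          linarith
        exact le_of_mul_le_mul_left h3 hMz

end ShghF
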