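import Pool.Agent.ShghF.DefsF

/-!
# The patterns and the preferences
-/

namespace ShghF

open ShghQ

theorem PatF_le (m a : ℕ) :
    ∑ r ∈ Finset.Icc 1 m, (if r ≤ a then (1 : ℤ) else 0) = ((min m a : ℕ) : ℤ) := by
  induction m with
  | zero => simp
  | succ m ih =>
    rw [Finset.sum_Icc_succ_top (by omega), ih]
    split_ifs with h
    · push_cast
      omega
    · push_cast
      omega

theorem PatF_gt (m n : ℕ) :
    ∑ r ∈ Finset.Icc 1 m, (if n < r then (1 : ℤ) else 0) = ((m - n : ℕ) : ℤ) := by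
  induction m with
  | zero => simp
  | succ m ih =>
    rw [Finset.sum_Icc_succ_top (by omega), ih]
    split_ifs with h <;> omega

theorem PatF_eq (m a n : ℕ) :
    ∑ r ∈ Finset.Icc 1 m, (if r = a ∧ n < a then (1 : ℤ) else 0) =
      if 1 ≤ a ∧ a ≤ m ∧ n < a then 1 else 0 := by
  induction m with
  | zero =>
    rw [if_neg (by omega)]
    simp
  | succ m ih =>
    rw [Finset.sum_Icc_succ_top (by omega), ih]
    split_ifs <;> omega

theorem PatF_one {ν p n l : ℕ} :
    ∑ r ∈ Finset.Icc 1 (min ν l), (if pref p n l r then (1 : ℤ) else 0) =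
      if l ≤ p then ((min ν l : ℕ) : ℤ) else if l = p + 1 then ((min ν l - n : ℕ) : ℤ) else 0 := by
  by_cases h1 : l ≤ p
  · rw [if_pos h1, Finset.sum_congr rfl fun r _ => if_pos (show pref p n l r from Or.inl h1)]
    simp
  · by_cases h2 : l = p + 1
    · rw [if_neg h1, if_pos h2, ← PatF_gt]
      refine Finset.sum_congr rfl fun r _ => ?_
      by_cases h3 : n < r
      · rw [if_pos (show pref p n l r from Or.inr ⟨h2, h3⟩), if_pos h3]
      · rw [if_neg, if_neg h3]
        rintro (h4 | ⟨_, h4⟩)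
        · exact h1 h4
        · exact h3 h4
    · rw [if_neg h1, if_neg h2]
      refine Finset.sum_eq_zero fun r _ => if_neg ?_
      rintro (h4 | ⟨h4, _⟩)
      · exact h1 h4
      · exact h2 h4

theorem PatF_two (m p n l : ℕ) (hl : l ≤ p) :
    ∑ r ∈ Finset.Icc 1 m, (if pref p n (l + r) r then (1 : ℤ) else 0) =
      ((min m (p - l) : ℕ) : ℤ) +
        if 1 ≤ p + 1 - l ∧ p + 1 - l ≤ m ∧ n < p + 1 - l then 1 else 0 := by
  rw [← PatF_le, ← PatF_eq, ← Finset.sum_add_distrib]
  refine Finset.sum_congr rfl fun r hr => ?_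
  by_cases h1 : r ≤ p - l
  · rw [if_pos h1, if_pos (show pref p n (l + r) r from Or.inl (by omega)), if_neg (by omega),
      add_zero]
  · rw [if_neg h1, zero_add]
    by_cases h2 : r = p + 1 - l ∧ n < p + 1 - l
    · rw [if_pos h2, if_pos (show pref p n (l + r) r from Or.inr (by omega))]
    · rw [if_neg h2, if_neg]
      rintro (h4 | h4)
      · omega
      · omega

theorem PatF_two' (m p n l : ℕ) (hl : p < l) :
    ∑ r ∈ Finset.Icc 1 m, (if pref p n (l + r) r then (1 : ℤ) else 0) = 0 := by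
  refine Finset.sum_eq_zero fun r hr => if_neg ?_
  have h1 := (Finset.mem_Icc.mp hr).1
  rintro (h4 | h4)
  · omega
  · omega

/-- Cases. First sum: the number of `r ∈ [1, min ν l]` with `l ≤ p` (all of them) or `l = p + 1`, `n < r` (there are
`min ν l - n` of them, `n ≤ min ν (p+1)` by `h.le`, `h.lp`); it is `0` if `l ≥ p + 2`. Note that
`min ν l + (ν - l) = ν`. Second sum: `0` if `l ≥ p + 1`; if `l ≤ p` it is the number of `r ∈ [1, min ν (L-1-l)]`
with `r ≤ p - l` or (`r = p + 1 - l` and `n < p + 1 - l`), that is `min ν (p - l)` (as `p ≤ L - 1`) plus one if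
`p + 1 < L`, `p + 1 - l ≤ ν`, `n < p + 1 - l`.
* `l ≤ p`: the right side is `ν - min ν (p - l) - [p + 1 < L, p + 1 - l ≤ ν, n < p + 1 - l]`, and `pat` is `ν - (p - l)` if
  `p - l < n` and `ν - (p - l) - 1` (truncated) otherwise. If `p - l < n` both agree. If `n ≤ p - l` and `p + 1 - l ≤ ν` then
  `n < ν`, so `p + 1 < L` by `h.last`, and both are `ν - (p - l) - 1`. If `p - l ≥ ν` both are `0`.
* `l = p + 1`: both are `ν - n`.
* `l ≥ p + 2`: both are `ν - l`.
To count: `Finset.sum_boole`, `Finset.filter`, and rewriting the filtered set as `Finset.Icc 1 _`, `Finset.Icc (n+1) _`, or insert of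
one element; or first prove by `Finset.sum_congr` that the summand is the indicator of an interval. -/
theorem pat_pref {L ν p n l : ℕ} (h : Adm L ν p n) (hl : l < L) :
    (pat ν p n l : ℤ) = ∑ r ∈ Finset.Icc 1 (min ν l), (if pref p n l r then (1 : ℤ) else 0) +
      ((ν - l : ℕ) : ℤ) -
      ∑ r ∈ Finset.Icc 1 (min ν (L - 1 - l)), (if pref p n (l + r) r then (1 : ℤ) else 0) := by
  have e1 := h.one
  have e2 := h.le
  have e3 := h.lp
  have e4 := h.pL
  have e5 := h.last
  rw [PatF_one]
  by_cases h1 : l ≤ p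
  · rw [PatF_two _ _ _ _ h1, if_pos h1]
    unfold pat
    rw [if_pos h1]
    rcases Nat.lt_or_ge (p + 1) L with h2 | h2
    · split_ifs <;> omega
    · have h3 := e5 (by omega)
      split_ifs <;> omega
  · rw [PatF_two' _ _ _ _ (by omega), if_neg h1]
    unfold pat
    rw [if_neg h1]
    split_ifs <;> omega

end ShghF
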