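import Pool.Agent.ShghF.DefsF

/-!
# The total load
-/

namespace ShghF

open ShghQ

/-- The two double sums are equal. -/
theorem SumF_swap (ν L : ℕ) (F : ℕ → ℕ → ℕ) :
    ∑ l ∈ Finset.range L, ∑ r ∈ Finset.Icc 1 (min ν l), (F r l : ℤ) =
      ∑ l ∈ Finset.range L, ∑ r ∈ Finset.Icc 1 (min ν (L - 1 - l)), (F r (l + r) : ℤ) := by
  rw [Finset.sum_sigma', Finset.sum_sigma']
  refine Finset.sum_nbij' (fun x => ⟨x.1 - x.2, x.2⟩) (fun x => ⟨x.1 + x.2, x.2⟩) ?_ ?_ ?_ ?_ ?_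
  · rintro ⟨l, r⟩ hx
    simp only [Finset.mem_sigma, Finset.mem_range, Finset.mem_Icc] at hx ⊢
    omega
  · rintro ⟨l, r⟩ hx
    simp only [Finset.mem_sigma, Finset.mem_range, Finset.mem_Icc] at hx ⊢
    omega
  · rintro ⟨l, r⟩ hx
    simp only [Finset.mem_sigma, Finset.mem_range, Finset.mem_Icc] at hx
    have h : l - r + r = l := by omega
    simp only [h]
  · rintro ⟨l, r⟩ hx
    simp only [Nat.add_sub_cancel]
  · rintro ⟨l, r⟩ hx
    simp only [Finset.mem_sigma, Finset.mem_range, Finset.mem_Icc] at hx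
    have h : l - r + r = l := by omega
    simp only [h]

/-- The double sums cancel: the pairs `(l, r)` with `l < L`, `1 ≤ r ≤ min ν l` correspond to the pairs `(l', r)`,
`l' = l - r`, with `1 ≤ r ≤ min ν (L - 1 - l')` (`Finset.sum_sigma'`, `Finset.sum_bij'` or `Finset.sum_comm'`); and
`Σ_{l<L} (ν - l) = tri ν` (`ShghQ.Pat_sum`). -/
theorem sum_ld {ν L : ℕ} (hL : ν ≤ L) (N : ℕ) (F : ℕ → ℕ → ℕ) :
    ∑ l ∈ Finset.range L, ld ν L N F l = N * tri ν := by
  have h1 := SumF_swap ν L F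
  have h2 : ∑ l ∈ Finset.range L, (N : ℤ) * ((ν - l : ℕ) : ℤ) = N * tri ν := by
    rw [← Finset.mul_sum, ← Pat_sum ν L hL]
    push_cast
    rfl
  unfold ld
  rw [Finset.sum_sub_distrib, Finset.sum_add_distrib, h1, h2]
  ring

end ShghF
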